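import Pool.Agent.Lib.MP_7fcd00_lc.Local

set_option autoImplicit false

/-!
# Circular cliques over Abelian Cayley graphs

For a Cayley graph `Cay(G, S)` and numbers `y`, `c` with `2 y ≤ c` the set `lex S y c` is the
connection set of the lexicographic product of the circular clique `K_{c/y}` with `Cay(G, S)`.
-/

namespace Pool.Agent.MP7fcd00TC

/-- The connection set on `G × Z/c`: the elements `(s, 0)`, `s ∈ S`, and all `(g, j)` for which the
representative of `j` in `0, …, c - 1` lies between `y` and `c - y`. -/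
def lex {G : Type} (S : Set G) (y c : ℕ) : Set (G × ZMod c) :=
  {g | (g.2 = 0 ∧ g.1 ∈ S) ∨ (y ≤ g.2.val ∧ g.2.val + y ≤ c)}

section circ

variable {G : Type} [AddCommGroup G] {S : Set G} {y c : ℕ}

lemma adj_of_mem (h0 : (0 : G) ∉ S) {a b : G} (h : b - a ∈ S) :
    (SimpleGraph.addCayley S).Adj a b := by
  rw [SimpleGraph.addCayley_adj']
  refine ⟨?_, b - a, h, Or.inl (by abel)⟩
  rintro rfl
  rw [sub_self] at h
  exact h0 h

theorem adj_iff_of_symm (h0 : (0 : G) ∉ S) (hs : ∀ g ∈ S, -g ∈ S) (a b : G) :
    (SimpleGraph.addCayley S).Adj a b ↔ a - b ∈ S := by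
  rw [SimpleGraph.addCayley_adj']
  constructor
  · rintro ⟨_, g, hg, h | h⟩
    · rw [← h]
      have : a - (a + g) = -g := by abel
      rw [this]
      exact hs g hg
    · rw [h, add_sub_cancel_left]
      exact hg
  · intro h
    refine ⟨?_, a - b, h, Or.inr (by abel)⟩
    rintro rfl
    rw [sub_self] at h
    exact h0 h

theorem lex_zero (hy : 0 < y) (h0 : (0 : G) ∉ S) : (0 : G × ZMod c) ∉ lex S y c := by
  rintro (⟨_, h⟩ | ⟨h, _⟩)
  · exact h0 h
  · have h' : y ≤ (0 : ZMod c).val := h
    rw [ZMod.val_zero] at h'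
    omega

theorem lex_symm (hy : 0 < y) (hc : 2 * y ≤ c) (hs : ∀ g ∈ S, -g ∈ S) (g : G × ZMod c)
    (h : g ∈ lex S y c) : -g ∈ lex S y c := by
  have : NeZero c := ⟨by omega⟩
  rcases h with ⟨h1, h2⟩ | ⟨h1, h2⟩
  · refine Or.inl ⟨?_, hs _ h2⟩
    rw [Prod.snd_neg, h1, neg_zero]
  · have hne : g.2 ≠ 0 := by
      intro h
      rw [h, ZMod.val_zero] at h1
      omega
    have : NeZero g.2 := ⟨hne⟩
    have hv : (-g).2.val = c - g.2.val := by
      rw [Prod.snd_neg, ZMod.val_neg_of_ne_zero]
    exact Or.inr ⟨by rw [hv]; omega, by rw [hv]; omega⟩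

/-- the colouring of the product -/
theorem amp_up (hy : 0 < y) (hc : 2 * y ≤ c) (h0 : (0 : G) ∉ S)
    (h : (SimpleGraph.addCayley S).Colorable y) :
    (SimpleGraph.addCayley (lex S y c)).Colorable c := by
  have : NeZero c := ⟨by omega⟩
  obtain ⟨f⟩ := h
  have key : ∀ u t : G × ZMod c, t ∈ lex S y c →
      (u + t).2 + (((f (u + t).1 : Fin y) : ℕ) : ZMod c) ≠
        u.2 + (((f u.1 : Fin y) : ℕ) : ZMod c) := by
    intro u t ht he
    have hval : ∀ m : ℕ, m < c → ((m : ℕ) : ZMod c).val = m := fun m hm => by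
      rw [ZMod.val_natCast, Nat.mod_eq_of_lt hm]
    have h1 := (f u.1).2
    have h2 := (f (u + t).1).2
    rcases ht with ⟨ht1, ht2⟩ | ⟨ht1, ht2⟩
    · rw [Prod.snd_add, ht1, add_zero, add_right_inj] at he
      have h3 := congrArg ZMod.val he
      rw [hval _ (by omega), hval _ (by omega)] at h3
      have hadj : (SimpleGraph.addCayley S).Adj u.1 (u + t).1 := by
        refine adj_of_mem h0 ?_
        rw [Prod.fst_add, add_sub_cancel_left]
        exact ht2
      exact f.valid hadj (Fin.ext h3.symm)
    · rw [Prod.snd_add, add_assoc, add_right_inj] at he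
      have h3 : ((t.2.val + ((f (u + t).1 : Fin y) : ℕ) : ℕ) : ZMod c) =
          (((f u.1 : Fin y) : ℕ) : ZMod c) := by
        rw [Nat.cast_add, ZMod.natCast_zmod_val]
        exact he
      have h4 := congrArg ZMod.val h3
      rw [hval _ (by omega), hval _ (by omega)] at h4
      omega
  have C : (SimpleGraph.addCayley (lex S y c)).Coloring (ZMod c) :=
    SimpleGraph.Coloring.mk (fun u => u.2 + (((f u.1 : Fin y) : ℕ) : ZMod c)) (by
      intro u v hadj
      rw [SimpleGraph.addCayley_adj'] at hadj
      obtain ⟨_, t, ht, h1 | h1⟩ := hadj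
      · rw [← h1]
        exact (key u t ht).symm
      · rw [h1]
        exact key v t ht)
  have := C.colorable
  rwa [ZMod.card] at this

/-- independent sets of the circular clique -/
theorem circ_indep (hy : 0 < y) (hc : 2 * y ≤ c) (J : Finset (ZMod c))
    (hJ : ∀ a ∈ J, ∀ b ∈ J, ¬ (y ≤ (a - b).val ∧ (a - b).val + y ≤ c)) : J.card ≤ y := by
  have : NeZero c := ⟨by omega⟩
  rcases J.eq_empty_or_nonempty with rfl | ⟨j0, hj0⟩
  · simp
  have hcard : (Finset.range y).card = y := Finset.card_range y
  rw [← hcard]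
  refine Finset.card_le_card_of_injOn
    (fun a => if (a - j0).val < y then (a - j0).val else (a - j0).val - (c - y)) ?_ ?_
  · intro a ha
    have h1 := hJ a ha j0 hj0
    have h2 := ZMod.val_lt (a - j0)
    simp only [Finset.coe_range, Set.mem_Iio]
    split_ifs with h
    · exact h
    · omega
  · intro a ha b hb hab
    have ha' := hJ a ha j0 hj0
    have hb' := hJ b hb j0 hj0
    have h1 := ZMod.val_lt (a - j0)
    have h2 := ZMod.val_lt (b - j0)
    have hinj : (a - j0).val = (b - j0).val → a = b := by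
      intro h
      have := ZMod.val_injective c h
      exact sub_left_injective this
    have hsub : ∀ {p r : ZMod c}, r.val ≤ p.val → (p - r).val = p.val - r.val :=
      fun h => ZMod.val_sub h
    have key : ∀ p r : ZMod c, p ∈ J → r ∈ J → (r - j0).val + (c - y) = (p - j0).val → False := by
      intro p r hp hr h
      have h3 : (p - r).val = (p - j0).val - (r - j0).val := by
        have e : p - r = (p - j0) - (r - j0) := by abel
        rw [e]
        exact hsub (by omega)
      have h4 := hJ p hp r hr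
      rw [h3] at h4
      omega
    simp only at hab
    split_ifs at hab with c1 c2 c2
    · exact hinj hab
    · exact (key b a hb ha (by omega)).elim
    · exact (key a b ha hb (by omega)).elim
    · exact hinj (by omega)

/-- the lower bound for the product -/
theorem amp_low (hy : 0 < y) (hc : 2 * y ≤ c) (h0 : (0 : G) ∉ S) {N M : ℕ}
    (h : ∀ m, (SimpleGraph.addCayley S).Colorable m → N ≤ m)
    (hcol : (SimpleGraph.addCayley (lex S y c)).Colorable M) : N * c ≤ M * y := by
  classical
  have : NeZero c := ⟨by omega⟩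
  have hz := lex_zero (c := c) hy h0
  obtain ⟨C⟩ := hcol
  have h1 : ∀ j : ZMod c, N ≤ ((Finset.univ : Finset (Fin M)).filter
      (fun i => ∃ g : G, C (g, j) = i)).card := by
    intro j
    refine h _ ?_
    have D : (SimpleGraph.addCayley S).Coloring
        {i : Fin M // i ∈ (Finset.univ : Finset (Fin M)).filter (fun i => ∃ g : G, C (g, j) = i)} :=
      SimpleGraph.Coloring.mk (fun g => ⟨C (g, j), by simp⟩) (by
        intro a b hab he
        have he' : C (a, j) = C (b, j) := congrArg Subtype.val he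
        refine C.valid ?_ he'
        rw [SimpleGraph.addCayley_adj'] at hab ⊢
        obtain ⟨hne, g, hg, h | h⟩ := hab
        · refine ⟨fun e => hne (congrArg Prod.fst e), (g, 0), Or.inl ⟨rfl, hg⟩, Or.inl ?_⟩
          rw [Prod.mk_add_mk, add_zero, h]
        · refine ⟨fun e => hne (congrArg Prod.fst e), (g, 0), Or.inl ⟨rfl, hg⟩, Or.inr ?_⟩
          rw [Prod.mk_add_mk, add_zero, ← h])
    have := D.colorable
    rwa [Fintype.card_coe] at this
  have h2 : ∀ i : Fin M, ((Finset.univ : Finset (ZMod c)).filter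
      (fun j => ∃ g : G, C (g, j) = i)).card ≤ y := by
    intro i
    refine circ_indep hy hc _ ?_
    intro a ha b hb hab
    simp only [Finset.mem_filter, Finset.mem_univ, true_and] at ha hb
    obtain ⟨g, hg⟩ := ha
    obtain ⟨g', hg'⟩ := hb
    refine C.valid (v := (g', b)) (w := (g, a)) ?_ (hg'.trans hg.symm)
    refine adj_of_mem hz (Or.inr ?_)
    exact hab
  have h3 : ∑ j : ZMod c, ((Finset.univ : Finset (Fin M)).filter
      (fun i => ∃ g : G, C (g, j) = i)).card = ∑ i : Fin M, ((Finset.univ : Finset (ZMod c)).filter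
      (fun j => ∃ g : G, C (g, j) = i)).card := by
    simp only [Finset.card_filter]
    exact Finset.sum_comm
  have h4 : ∑ j : ZMod c, N ≤ ∑ j : ZMod c, ((Finset.univ : Finset (Fin M)).filter
      (fun i => ∃ g : G, C (g, j) = i)).card := Finset.sum_le_sum fun j _ => h1 j
  have h5 : ∑ i : Fin M, ((Finset.univ : Finset (ZMod c)).filter
      (fun j => ∃ g : G, C (g, j) = i)).card ≤ ∑ i : Fin M, y := Finset.sum_le_sum fun i _ => h2 i
  rw [Finset.sum_const, Finset.card_univ, ZMod.card, smul_eq_mul] at h4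
  rw [Finset.sum_const, Finset.card_univ, Fintype.card_fin, smul_eq_mul] at h5
  calc N * c = c * N := mul_comm _ _
    _ ≤ M * y := h4.trans (h3 ▸ h5)

end circ

end Pool.Agent.MP7fcd00TC
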