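import Pool.Agent.Lib.MP_7fcd00_lc.Graph

set_option autoImplicit false

/-! From 3-CNF formulas to the constraint system. -/

namespace Pool.Agent.MP7fcd00TC

variable {n k : ℕ}

lemma idx_lt (u : Cell n k) : u.idx < 4 * k + 6 * n + 1 := by
  cases u with
  | c i => have := i.2; simp only [Cell.idx]; omega
  | y i j => have := i.2; have := j.2; simp only [Cell.idx]; omega
  | w x t => have := x.2; have := t.2; simp only [Cell.idx]; omega

lemma idx_inj {u v : Cell n k} (h : u.idx = v.idx) : u = v := by
  cases u with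
  | c i => cases v with
    | c i' => simp only [Cell.idx] at h; congr 1; exact Fin.ext h
    | y i' j' => have := i.2; simp only [Cell.idx] at h; omega
    | w x' t' => have := i.2; simp only [Cell.idx] at h; omega
  | y i j => cases v with
    | c i' => have := i'.2; simp only [Cell.idx] at h; omega
    | y i' j' =>
      have := j.2; have := j'.2; simp only [Cell.idx] at h
      congr 1
      · exact Fin.ext (by omega)
      · exact Fin.ext (by omega)
    | w x' t' => have := i.2; have := j.2; simp only [Cell.idx] at h; omega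
  | w x t => cases v with
    | c i' => have := i'.2; simp only [Cell.idx] at h; omega
    | y i' j' => have := i'.2; have := j'.2; simp only [Cell.idx] at h; omega
    | w x' t' =>
      have := t.2; have := t'.2; simp only [Cell.idx] at h
      congr 1
      · exact Fin.ext (by omega)
      · exact Fin.ext (by omega)

lemma pos_lt {u v : Cell n k} (h : u.idx < v.idx) : pos u + 8 ≤ pos v := by
  unfold pos
  set N := 4 * k + 6 * n + 1
  have hN : 1 ≤ N := by omega
  have h1 : u.idx ^ 2 ≤ v.idx ^ 2 := Nat.pow_le_pow_left h.le 2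
  have h2 : 8 * N ^ 2 * (u.idx + 1) ≤ 8 * N ^ 2 * v.idx := Nat.mul_le_mul_left _ h
  have h3 : 1 ≤ N ^ 2 := Nat.one_le_pow _ _ hN
  nlinarith

lemma geo_pos (n k : ℕ) : Geo (pos : Cell n k → ℕ) (9 * (4 * k + 6 * n + 1) ^ 3) where
  hU := by
    have : 1 ≤ (4 * k + 6 * n + 1) ^ 3 := Nat.one_le_pow _ _ (by omega)
    omega
  lo u := by
    unfold pos
    have : 2 * (9 * (4 * k + 6 * n + 1) ^ 3) = 18 * (4 * k + 6 * n + 1) ^ 3 := by ring
    rw [this]
    omega
  hi u := by
    unfold pos
    have h := idx_lt u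
    set N := 4 * k + 6 * n + 1
    set c := u.idx
    have h1 : c + 1 ≤ N := h
    have h2 : c ^ 2 ≤ N ^ 2 := Nat.pow_le_pow_left h.le 2
    have h3 : 8 * N ^ 2 * (c + 1) ≤ 8 * N ^ 2 * N := Nat.mul_le_mul_left _ h1
    have h4 : 1 ≤ N ^ 2 := Nat.one_le_pow _ _ (by omega)
    have h5 : 1 ≤ N ^ 3 := Nat.one_le_pow _ _ (by omega)
    nlinarith
  sp u v h := by
    rcases lt_trichotomy u.idx v.idx with h1 | h1 | h1
    · exact Or.inl (pos_lt h1)
    · exact absurd (idx_inj h1) h
    · exact Or.inr (pos_lt h1)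
  sidon u v a b h := by
    unfold pos at h
    have hu := idx_lt u
    have hv := idx_lt v
    have ha := idx_lt a
    have hb := idx_lt b
    have key : (v.idx = b.idx ∧ a.idx = u.idx) ∨ (v.idx = u.idx ∧ a.idx = b.idx) := by
      generalize u.idx = U at *
      generalize v.idx = W at *
      generalize a.idx = P at *
      generalize b.idx = Q at *
      generalize 4 * k + 6 * n + 1 = N at *
      zify at h hu hv ha hb ⊢
      have e : 8 * (N : ℤ) ^ 2 * ((W : ℤ) + P - Q - U) =
          (Q : ℤ) ^ 2 + (U : ℤ) ^ 2 - (W : ℤ) ^ 2 - (P : ℤ) ^ 2 := by linarith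
      have b1 : (Q : ℤ) ^ 2 ≤ (N : ℤ) ^ 2 := by nlinarith
      have b2 : (U : ℤ) ^ 2 ≤ (N : ℤ) ^ 2 := by nlinarith
      have b3 : (W : ℤ) ^ 2 ≤ (N : ℤ) ^ 2 := by nlinarith
      have b4 : (P : ℤ) ^ 2 ≤ (N : ℤ) ^ 2 := by nlinarith
      have hN : 0 < (N : ℤ) ^ 2 := by
        have : 0 < (N : ℤ) := by omega
        positivity
      have hD : (W : ℤ) + P - Q - U = 0 := by
        by_contra hne
        rcases lt_or_gt_of_ne hne with h1 | h1
        · have : (W : ℤ) + P - Q - U ≤ -1 := by omega
          nlinarith [sq_nonneg (Q : ℤ), sq_nonneg (U : ℤ)]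
        · have : 1 ≤ (W : ℤ) + P - Q - U := by omega
          nlinarith [sq_nonneg (W : ℤ), sq_nonneg (P : ℤ)]
      rw [hD, mul_zero] at e
      have hP : (P : ℤ) = Q + U - W := by linarith
      have hprod : ((W : ℤ) - Q) * ((W : ℤ) - U) = 0 := by
        rw [hP] at e
        nlinarith
      rcases mul_eq_zero.1 hprod with h1 | h1
      · left; constructor <;> omega
      · right; constructor <;> omega
    rcases key with ⟨h1, h2⟩ | ⟨h1, h2⟩
    · exact Or.inl ⟨idx_inj h1, idx_inj h2⟩
    · exact Or.inr ⟨idx_inj h1, idx_inj h2⟩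

lemma arcs_pos (φ : CNF n k) (u v : Cell n k) (h : arcs φ u v) : pos u < pos v := by
  have : u.idx < v.idx := by
    cases u with
    | c i => cases v with
      | c i' => exact h.elim
      | y i' j' => have := i.2; simp only [Cell.idx]; omega
      | w x' t' => exact h.elim
    | y i j => cases v with
      | c i' => exact h.elim
      | y i' j' => exact h.elim
      | w x' t' => have := i.2; have := j.2; simp only [Cell.idx]; omega
    | w x t => cases v with
      | c i' => exact h.elim
      | y i' j' => exact h.elim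
      | w x' t' =>
        obtain ⟨h1, h2⟩ := h
        subst h1
        simp only [Cell.idx]; omega
  have := pos_lt this
  omega

lemma litT_mod (j : Fin 3) (b : Bool) :
    (((litT j b : Fin 6) : ℕ) : ZMod 3) = 1 - ((j : ℕ) : ZMod 3) := by
  revert j b; decide

lemma litT_par (j : Fin 3) (b : Bool) : ((litT j b : Fin 6) : ℕ) % 2 = 0 ↔ b = true := by
  revert j b; decide

lemma cy_ne : ∀ j e : Fin 3, ¬ j = e →
    ((j : ℕ) : ZMod 3) - 1 - ((e : ℕ) : ZMod 3) ≠ 2 := by decide

/-- the solution of a satisfying assignment -/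
def toSol (a : Fin n → Bool) (j0 : Fin k → Fin 3) : Cell n k → ZMod 3
  | .c i => ((j0 i : ℕ) : ZMod 3)
  | .y i j => if j = j0 i then ((j : ℕ) : ZMod 3) else ((j : ℕ) : ZMod 3) - 1
  | .w x t => if (a x = true ↔ (t : ℕ) % 2 = 0) then 1 - ((t : ℕ) : ZMod 3)
      else - ((t : ℕ) : ZMod 3)

theorem sol_of_sat (φ : CNF n k) (h : Sat φ) :
    ∃ s : Cell n k → ZMod 3, (∀ u : Cell n k, u.lst (s u)) ∧ ∀ u v, arcs φ u v → s v - s u ≠ 2 := by
  obtain ⟨a, ha⟩ := h
  choose j0 hj0 using ha
  refine ⟨toSol a j0, ?_, ?_⟩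
  · intro u
    cases u with
    | c i => trivial
    | y i j =>
      simp only [Cell.lst, toSol]
      split_ifs
      · generalize ((j : ℕ) : ZMod 3) = e; revert e; decide
      · generalize ((j : ℕ) : ZMod 3) = e; revert e; decide
    | w x t =>
      simp only [Cell.lst, toSol]
      split_ifs
      · generalize ((t : ℕ) : ZMod 3) = e; revert e; decide
      · generalize ((t : ℕ) : ZMod 3) = e; revert e; decide
  · intro u v huv
    cases u with
    | c i => cases v with
      | c i' => exact huv.elim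
      | y i' j' =>
        have huv : i = i' := huv
        subst huv
        simp only [toSol]
        split_ifs with h1
        · rw [h1]; generalize ((j0 i : ℕ) : ZMod 3) = e; revert e; decide
        · exact cy_ne _ _ h1
      | w x' t' => exact huv.elim
    | y i j => cases v with
      | c i' => exact huv.elim
      | y i' j' => exact huv.elim
      | w x' t' =>
        obtain ⟨h1, h2⟩ := huv
        subst h1 h2
        simp only [toSol]
        simp only [litT_mod, litT_par]
        by_cases hj : j = j0 i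
        · rw [if_pos hj]
          have hh := hj0 i
          rw [← hj] at hh
          rw [hh, if_pos Iff.rfl]
          generalize ((j : ℕ) : ZMod 3) = e; revert e; decide
        · rw [if_neg hj]
          split_ifs
          · generalize ((j : ℕ) : ZMod 3) = e; revert e; decide
          · generalize ((j : ℕ) : ZMod 3) = e; revert e; decide
    | w x t => cases v with
      | c i' => exact huv.elim
      | y i' j' => exact huv.elim
      | w x' t' =>
        obtain ⟨h1, h2⟩ := huv
        subst h1
        simp only [toSol]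
        rw [← h2]
        push_cast
        have hpar : ((t : ℕ) + 1) % 2 = 0 ↔ ¬ (t : ℕ) % 2 = 0 := by omega
        by_cases hc : (a x = true ↔ (t : ℕ) % 2 = 0)
        · rw [if_pos hc, if_neg (by rw [hpar]; tauto)]
          generalize ((t : ℕ) : ZMod 3) = e; revert e; decide
        · rw [if_neg hc, if_pos (by rw [hpar]; tauto)]
          generalize ((t : ℕ) : ZMod 3) = e; revert e; decide

lemma chain_step : ∀ t e e' : ZMod 3, e ≠ 2 - t → e' ≠ 2 - (t + 1) → e' - e ≠ 2 →
    (e' = 1 - (t + 1) ↔ ¬ e = 1 - t) := by decide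

theorem sat_of_sol (φ : CNF n k) (s : Cell n k → ZMod 3) (hl : ∀ u : Cell n k, u.lst (s u))
    (ha : ∀ u v, arcs φ u v → s v - s u ≠ 2) : Sat φ := by
  classical
  refine ⟨fun x => decide (s (.w x 0) = 1), fun i => ?_⟩
  -- the chain of a variable
  have chain : ∀ (x : Fin n) (t : ℕ) (ht : t < 6),
      (s (.w x ⟨t, ht⟩) = 1 - ((t : ℕ) : ZMod 3) ↔ (s (.w x 0) = 1 ↔ t % 2 = 0)) := by
    intro x t
    induction t with
    | zero => intro ht; simp
    | succ t ih =>
      intro ht
      have ih' := ih (by omega)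
      have h1 := hl (.w x ⟨t, by omega⟩)
      have h2 := hl (.w x ⟨t + 1, ht⟩)
      have h3 := ha (.w x ⟨t, by omega⟩) (.w x ⟨t + 1, ht⟩) ⟨rfl, rfl⟩
      simp only [Cell.lst] at h1 h2
      push_cast at h2 ⊢
      rw [chain_step _ _ _ h1 h2 h3, ih']
      have hpar : (t + 1) % 2 = 0 ↔ ¬ t % 2 = 0 := by omega
      rw [hpar]
      tauto
  obtain ⟨j, hj⟩ : ∃ j : Fin 3, s (.c i) = ((j : ℕ) : ZMod 3) := by
    generalize s (.c i) = e; revert e; decide
  refine ⟨j, ?_⟩
  have hy1 := hl (.y i j)
  have hy2 := ha (.c i) (.y i j) rfl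
  simp only [Cell.lst] at hy1
  have hy : s (.y i j) = ((j : ℕ) : ZMod 3) := by
    rw [hj] at hy2
    revert hy1 hy2
    generalize s (.y i j) = e
    generalize ((j : ℕ) : ZMod 3) = e'
    revert e e'; decide
  have hw1 := hl (.w (φ i j).1 (litT j (φ i j).2))
  have hw2 := ha (.y i j) (.w (φ i j).1 (litT j (φ i j).2)) ⟨rfl, rfl⟩
  simp only [Cell.lst] at hw1
  rw [hy] at hw2
  have hmod := litT_mod j (φ i j).2
  have hw : s (.w (φ i j).1 (litT j (φ i j).2)) =
      1 - (((litT j (φ i j).2 : Fin 6) : ℕ) : ZMod 3) := by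
    rw [hmod] at hw1 ⊢
    revert hw1 hw2
    generalize s (.w (φ i j).1 (litT j (φ i j).2)) = e
    generalize ((j : ℕ) : ZMod 3) = e'
    revert e e'; decide
  have hfin := (chain (φ i j).1 (litT j (φ i j).2 : Fin 6) (litT j (φ i j).2).2).1 hw
  rw [litT_par] at hfin
  rw [Bool.eq_iff_iff, decide_eq_true_iff]
  exact hfin

end Pool.Agent.MP7fcd00TC
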