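import Mathlib

set_option autoImplicit false

/-!
# The Cayley graph of a 3-CNF formula
-/

namespace Pool.Agent.MP7fcd00TC

/-- 3-CNF formulas with `k` clauses over `n` variables; `φ i j = (x, b)` is the `j`-th literal of
the clause `i`: the variable `x` if `b = true`, its negation if `b = false`. -/
abbrev CNF (n k : ℕ) := Fin k → Fin 3 → Fin n × Bool

/-- satisfiability -/
def Sat {n k : ℕ} (φ : CNF n k) : Prop :=
  ∃ a : Fin n → Bool, ∀ i : Fin k, ∃ j : Fin 3, a (φ i j).1 = (φ i j).2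

/-- the period `q` -/
def per (n k : ℕ) : ℕ := 90 * (4 * k + 6 * n + 1) ^ 3

/-- the position of the information cell number `e < 4k + 6n` -/
def loc (n k e : ℕ) : ℕ :=
  18 * (4 * k + 6 * n + 1) ^ 3 + 8 * (4 * k + 6 * n + 1) ^ 2 * e + e ^ 2

/-- the distance that excludes the value `v` mod 3 of the information cell number `e` -/
def excl (n k e v : ℕ) : ℕ :=
  if v % 3 = 0 then loc n k e - 1 else if v % 3 = 1 then per n k - loc n k e - 3 else loc n k e

/-- the number `< 6` used for the `j`-th literal of a clause if its sign is `b` -/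
def litT (j : Fin 3) (b : Bool) : Fin 6 := if b then ![4, 0, 2] j else ![1, 3, 5] j

/-- the list of the pairs `(d, δ)` such that the difference `δ` is forbidden at distance `d` -/
def forb {n k : ℕ} (φ : CNF n k) : List (ℕ × ZMod 6) :=
  let q := per n k
  let z := loc n k
  [(1, 4), (2, 4), (3, 4), (5, 4), (6, 4), (q - 1, 0), (q - 1, 2), (q - 1, 3), (q - 1, 4),
    (q - 1, 5), (q - 2, 0), (q - 2, 1), (q - 2, 4), (q - 3, 1), (q - 3, 3), (q - 3, 4),
    (q - 4, 0), (q - 4, 1), (q - 5, 0)] ++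
  (List.range (4 * k + 6 * n)).flatMap (fun e =>
    [(z e + 1, 4), (z e + 2, 4), (z e + 4, 4), (q - z e, 4), (q - z e + 1, 4), (q - z e + 2, 4),
      (q - z e - 1, 4), (q - z e - 4, 4), (q - z e - 1, 2)]) ++
  (List.finRange k).flatMap (fun i : Fin k => (List.finRange 3).flatMap (fun j : Fin 3 =>
    [(excl n k (k + 3 * i + j) (j + 1), 4), (z (k + 3 * i + j) - z i, 4),
      (z (4 * k + 6 * (φ i j).1 + litT j (φ i j).2) - z (k + 3 * i + j), 4)])) ++
  (List.range n).flatMap (fun x => (List.range 6).map (fun t =>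
    (excl n k (4 * k + 6 * x + t) (8 - t), 4))) ++
  (List.range n).flatMap (fun x => (List.range 5).map (fun t =>
    (z (4 * k + 6 * x + t + 1) - z (4 * k + 6 * x + t), 4)))

/-- the group `Z/6 × Z/2 × Z/2q × Z/m` -/
abbrev Grp (n k m : ℕ) := (ZMod 6 × ZMod 2) × ZMod (2 * per n k) × ZMod m

/-- the connection set of the formula `φ` -/
def S {n k : ℕ} (φ : CNF n k) (m : ℕ) : Set (Grp n k m) :=
  {g | g.2.2 ≠ 0} ∪ {g | g.2 = 0 ∧ g.1 ≠ 0} ∪ {g | g.2 = (↑(per n k), 0) ∧ g.1 ≠ (0, 1)} ∪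
    {g | ∃ p ∈ forb φ, g = ((p.2, 0), (↑p.1, 0)) ∨ g = -((p.2, 0), (↑p.1, 0))}

end Pool.Agent.MP7fcd00TC
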