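import Pool.Agent.Lib.MP_7fcd00_lc.Cnf

set_option autoImplicit false

/-! The explicit list of forbidden pairs. -/

namespace Pool.Agent.MP7fcd00TC

variable {n k : ℕ}

lemma mem_forb_iff (φ : CNF n k) (p : ℕ × ZMod 6) : p ∈ forb φ ↔
    p ∈ ([(1, 4), (2, 4), (3, 4), (5, 4), (6, 4), (per n k - 1, 0), (per n k - 1, 2),
      (per n k - 1, 3), (per n k - 1, 4), (per n k - 1, 5), (per n k - 2, 0), (per n k - 2, 1),
      (per n k - 2, 4), (per n k - 3, 1), (per n k - 3, 3), (per n k - 3, 4), (per n k - 4, 0),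
      (per n k - 4, 1), (per n k - 5, 0)] : List (ℕ × ZMod 6)) ∨
    (∃ e < 4 * k + 6 * n, p ∈ ([(loc n k e + 1, 4), (loc n k e + 2, 4), (loc n k e + 4, 4),
      (per n k - loc n k e, 4), (per n k - loc n k e + 1, 4), (per n k - loc n k e + 2, 4),
      (per n k - loc n k e - 1, 4), (per n k - loc n k e - 4, 4),
      (per n k - loc n k e - 1, 2)] : List (ℕ × ZMod 6))) ∨
    (∃ (i : Fin k) (j : Fin 3), p ∈ ([(excl n k (k + 3 * i + j) (j + 1), 4),
      (loc n k (k + 3 * i + j) - loc n k i, 4),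
      (loc n k (4 * k + 6 * (φ i j).1 + litT j (φ i j).2) - loc n k (k + 3 * i + j), 4)] :
        List (ℕ × ZMod 6))) ∨
    (∃ x < n, ∃ t < 6, p = (excl n k (4 * k + 6 * x + t) (8 - t), 4)) ∨
    (∃ x < n, ∃ t < 5, p = (loc n k (4 * k + 6 * x + t + 1) - loc n k (4 * k + 6 * x + t), 4)) := by
  unfold forb
  simp only [List.mem_append, List.mem_flatMap, List.mem_range, List.mem_finRange, true_and,
    List.mem_map, or_assoc]
  refine or_congr Iff.rfl (or_congr Iff.rfl (or_congr Iff.rfl (or_congr ?_ ?_)))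
  · constructor
    · rintro ⟨x, hx, t, ht, h⟩; exact ⟨x, hx, t, ht, h.symm⟩
    · rintro ⟨x, hx, t, ht, h⟩; exact ⟨x, hx, t, ht, h.symm⟩
  · constructor
    · rintro ⟨x, hx, t, ht, h⟩; exact ⟨x, hx, t, ht, h.symm⟩
    · rintro ⟨x, hx, t, ht, h⟩; exact ⟨x, hx, t, ht, h.symm⟩

lemma exists_cell (e : ℕ) (he : e < 4 * k + 6 * n) : ∃ u : Cell n k, u.idx = e := by
  by_cases h1 : e < k
  · exact ⟨.c ⟨e, h1⟩, rfl⟩
  by_cases h2 : e < 4 * k
  · refine ⟨.y ⟨(e - k) / 3, by omega⟩ ⟨(e - k) % 3, by omega⟩, ?_⟩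
    simp only [Cell.idx]; omega
  · refine ⟨.w ⟨(e - 4 * k) / 6, by omega⟩ ⟨(e - 4 * k) % 6, by omega⟩, ?_⟩
    simp only [Cell.idx]; omega

lemma idx_lt' (u : Cell n k) : u.idx < 4 * k + 6 * n := by
  cases u with
  | c i => have := i.2; simp only [Cell.idx]; omega
  | y i j => have := i.2; have := j.2; simp only [Cell.idx]; omega
  | w x t => have := x.2; have := t.2; simp only [Cell.idx]; omega

lemma forb_excl (φ : CNF n k) (u : Cell n k) (v : ℕ) (h : ¬ u.lst ((v : ℕ) : ZMod 3)) :
    Forb pos (per n k) Cell.lst (arcs φ) (excl n k u.idx v) 4 := by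
  have hv : ((v % 3 : ℕ) : ZMod 3) = ((v : ℕ) : ZMod 3) := ZMod.natCast_mod v 3
  rw [← hv] at h
  unfold excl
  have h3 : v % 3 < 3 := Nat.mod_lt _ (by norm_num)
  generalize v % 3 = r at *
  split_ifs with h0 h1
  · subst h0; exact Forb.no1 u (by simpa using h)
  · subst h1; exact Forb.no3 u (by simpa using h)
  · have h2 : r = 2 := by omega
    subst h2; exact Forb.no5 u (by simpa using h)

theorem forb_of_mem (φ : CNF n k) (p : ℕ × ZMod 6) (h : p ∈ forb φ) :
    Forb pos (per n k) Cell.lst (arcs φ) p.1 p.2 := by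
  have hq : 90 ≤ per n k := by
    have : 1 ≤ (4 * k + 6 * n + 1) ^ 3 := Nat.one_le_pow _ _ (by omega)
    unfold per; omega
  rw [mem_forb_iff] at h
  rcases h with h | ⟨e, he, h⟩ | ⟨i, j, h⟩ | ⟨x, hx, t, ht, h⟩ | ⟨x, hx, t, ht, h⟩
  · simp only [List.mem_cons, List.not_mem_nil, or_false] at h
    rcases h with rfl | rfl | rfl | rfl | rfl | h
    iterate 5 exact Forb.near _ _ (by decide)
    rcases h with rfl | rfl | rfl | rfl | rfl | h
    iterate 5 exact Forb.far 1 _ _ (by simp only; omega) (by simp only; decide)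
    rcases h with rfl | rfl | rfl | h
    iterate 3 exact Forb.far 2 _ _ (by simp only; omega) (by simp only; decide)
    rcases h with rfl | rfl | rfl | h
    iterate 3 exact Forb.far 3 _ _ (by simp only; omega) (by simp only; decide)
    rcases h with rfl | rfl | rfl
    iterate 2 exact Forb.far 4 _ _ (by simp only; omega) (by simp only; decide)
    exact Forb.far 5 _ _ (by simp only; omega) (by simp only; decide)
  · obtain ⟨u, rfl⟩ := exists_cell e he
    simp only [List.mem_cons, List.not_mem_nil, or_false] at h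
    rcases h with rfl | rfl | rfl | rfl | rfl | rfl | rfl | rfl | rfl
    · exact Forb.m1 u
    · exact Forb.m2 u
    · exact Forb.m4 u
    · exact Forb.r0 u
    · exact Forb.r1 u
    · exact Forb.r2 u
    · exact Forb.l1 u
    · exact Forb.l4 u
    · exact Forb.two u
  · simp only [List.mem_cons, List.not_mem_nil, or_false] at h
    rcases h with rfl | rfl | rfl
    · refine forb_excl φ (.y i j) (j + 1) ?_
      simp [Cell.lst]
    · exact Forb.arc (Cell.c i) (Cell.y i j) rfl
    · exact Forb.arc (Cell.y i j) (Cell.w (φ i j).1 (litT j (φ i j).2)) ⟨rfl, rfl⟩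
  · rw [h]
    refine forb_excl φ (.w ⟨x, hx⟩ ⟨t, ht⟩) (8 - t) ?_
    simp only [Cell.lst, not_not]
    interval_cases t <;> decide
  · rw [h]
    exact Forb.arc (Cell.w ⟨x, hx⟩ ⟨t, by omega⟩) (Cell.w ⟨x, hx⟩ ⟨t + 1, by omega⟩) ⟨rfl, rfl⟩

lemma excl_zero (u : Cell n k) (v : ℕ) (h : v % 3 = 0) : excl n k u.idx v = pos u - 1 := by
  unfold excl; rw [if_pos h]; rfl

lemma excl_one (u : Cell n k) (v : ℕ) (h : v % 3 = 1) :
    excl n k u.idx v = per n k - pos u - 3 := by
  unfold excl; rw [if_neg (by omega), if_pos h]; rfl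

lemma excl_two (u : Cell n k) (v : ℕ) (h : v % 3 = 2) : excl n k u.idx v = pos u := by
  unfold excl; rw [if_neg (by omega), if_neg (by omega)]; rfl

lemma mem_excl (φ : CNF n k) (u : Cell n k) (e : ZMod 3) (h : ¬ u.lst e) :
    ∃ v : ℕ, (v : ZMod 3) = e ∧ (excl n k u.idx v, (4 : ZMod 6)) ∈ forb φ := by
  cases u with
  | c i => exact absurd trivial h
  | y i j =>
    simp only [Cell.lst, not_not] at h
    refine ⟨j + 1, by rw [h]; push_cast; rfl, ?_⟩
    rw [mem_forb_iff]
    right; right; left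
    exact ⟨i, j, by simp [Cell.idx]⟩
  | w x t =>
    simp only [Cell.lst, not_not] at h
    refine ⟨8 - t, ?_, ?_⟩
    · rw [h]; clear h; revert t; decide
    · rw [mem_forb_iff]
      right; right; right; left
      exact ⟨x, x.2, t, t.2, rfl⟩

lemma cast3 : ∀ v : ℕ, (v : ZMod 3) = ((v % 3 : ℕ) : ZMod 3) := fun v =>
  (ZMod.natCast_mod v 3).symm

lemma mod_of_cast (v : ℕ) : ((v : ZMod 3) = 0 → v % 3 = 0) ∧ ((v : ZMod 3) = 1 → v % 3 = 1) ∧
    ((v : ZMod 3) = 2 → v % 3 = 2) := by
  rw [cast3]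
  have h3 : v % 3 < 3 := Nat.mod_lt _ (by norm_num)
  generalize v % 3 = r at *
  interval_cases r <;> decide

theorem mem_of_forb (φ : CNF n k) (d : ℕ) (δ : ZMod 6)
    (h : Forb pos (per n k) Cell.lst (arcs φ) d δ) : (d, δ) ∈ forb φ := by
  have cell : ∀ u : Cell n k, ∀ p : ℕ × ZMod 6, p ∈ ([(pos u + 1, 4), (pos u + 2, 4),
      (pos u + 4, 4), (per n k - pos u, 4), (per n k - pos u + 1, 4), (per n k - pos u + 2, 4),
      (per n k - pos u - 1, 4), (per n k - pos u - 4, 4),
      (per n k - pos u - 1, 2)] : List (ℕ × ZMod 6)) → p ∈ forb φ := by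
    intro u p hp
    rw [mem_forb_iff]
    right; left
    exact ⟨u.idx, idx_lt' u, hp⟩
  cases h with
  | near _ _ h =>
    unfold nearB at h
    simp only [Bool.or_eq_true, Bool.and_eq_true, decide_eq_true_eq] at h
    rw [mem_forb_iff]
    left
    obtain ⟨rfl, h⟩ := h
    rcases h with (((h | h) | h) | h) | h <;> subst h <;> simp
  | far m _ _ hm h =>
    unfold farB at h
    simp only [Bool.or_eq_true, Bool.and_eq_true, decide_eq_true_eq] at h
    have hd : d = per n k - m := by omega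
    subst hd
    rw [mem_forb_iff]
    left
    have h6 : ∀ δ : ZMod 6, δ ≠ 1 → δ = 0 ∨ δ = 2 ∨ δ = 3 ∨ δ = 4 ∨ δ = 5 := by decide
    rcases h with (((⟨rfl, h⟩ | ⟨rfl, h⟩) | ⟨rfl, h⟩) | ⟨rfl, h⟩) | ⟨rfl, h⟩
    · rcases h6 δ h with rfl | rfl | rfl | rfl | rfl <;> simp
    · rcases h with (rfl | rfl) | rfl <;> simp
    · rcases h with (rfl | rfl) | rfl <;> simp
    · rcases h with rfl | rfl <;> simp
    · subst h; simp
  | m1 u => exact cell u _ (by simp)
  | m2 u => exact cell u _ (by simp)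
  | m4 u => exact cell u _ (by simp)
  | r0 u => exact cell u _ (by simp)
  | r1 u => exact cell u _ (by simp)
  | r2 u => exact cell u _ (by simp)
  | l1 u => exact cell u _ (by simp)
  | l4 u => exact cell u _ (by simp)
  | two u => exact cell u _ (by simp)
  | no5 u h =>
    obtain ⟨v, hv, hm⟩ := mem_excl φ u _ h
    rwa [excl_two u v ((mod_of_cast v).2.2 hv)] at hm
  | no1 u h =>
    obtain ⟨v, hv, hm⟩ := mem_excl φ u _ h
    rwa [excl_zero u v ((mod_of_cast v).1 hv)] at hm
  | no3 u h =>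
    obtain ⟨v, hv, hm⟩ := mem_excl φ u _ h
    rwa [excl_one u v ((mod_of_cast v).2.1 hv)] at hm
  | arc u v h =>
    rw [mem_forb_iff]
    cases u with
    | c i => cases v with
      | c i' => exact h.elim
      | y i' j' =>
        have h : i = i' := h
        subst h
        right; right; left
        exact ⟨i, j', by simp [pos, loc, Cell.idx]⟩
      | w x' t' => exact h.elim
    | y i j => cases v with
      | c i' => exact h.elim
      | y i' j' => exact h.elim
      | w x' t' =>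
        obtain ⟨h1, h2⟩ := h
        subst h1 h2
        right; right; left
        exact ⟨i, j, by simp [pos, loc, Cell.idx]⟩
    | w x t => cases v with
      | c i' => exact h.elim
      | y i' j' => exact h.elim
      | w x' t' =>
        obtain ⟨h1, h2⟩ := h
        subst h1
        right; right; right; right
        refine ⟨x, x.2, t, by omega, ?_⟩
        simp only [pos, loc, Cell.idx, ← h2, add_assoc]

end Pool.Agent.MP7fcd00TC
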