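import Mathlib

set_option autoImplicit false

/-! Colourings of Cayley graphs on `A × K × J` and sections `p : K → A`. -/

namespace Pool.Agent.MP7fcd00TC

open Finset

variable {A K J : Type} [AddCommGroup A] [AddCommGroup K] [AddCommGroup J]

theorem colorable_of_section [Fintype A] [Fintype J] (T : Set (A × K × J)) (p : K → A)
    (hp : ∀ g ∈ T, g.2.2 = 0 → ∀ x, p (x + g.2.1) - p x ≠ g.1) :
    (SimpleGraph.addCayley T).Colorable (Fintype.card A * Fintype.card J) := by
  classical
  have key : ∀ g h t : A × K × J, t ∈ T → h + t = g →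
      ((g.1 - p g.2.1, g.2.2) : A × J) ≠ (h.1 - p h.2.1, h.2.2) := by
    intro g h t hT hg he
    subst hg
    rw [Prod.mk.injEq] at he
    obtain ⟨h1, h2⟩ := he
    have h3 : t.2.2 = 0 := by simpa using h2
    refine hp _ hT h3 h.2.1 ?_
    simp only [Prod.fst_add, Prod.snd_add] at h1
    have e : p (h.2.1 + t.2.1) - p h.2.1 = t.1 + (h.1 - p h.2.1) -
        (h.1 + t.1 - p (h.2.1 + t.2.1)) := by abel
    rw [e, h1]; abel
  have C : (SimpleGraph.addCayley T).Coloring (A × J) :=
    SimpleGraph.Coloring.mk (fun g => (g.1 - p g.2.1, g.2.2)) (by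
      intro g h hadj
      rw [SimpleGraph.addCayley_adj'] at hadj
      obtain ⟨_, t, ht, h1 | h1⟩ := hadj
      · exact (key h g t ht h1).symm
      · exact key g h t ht h1.symm)
  have := C.colorable
  rwa [Fintype.card_prod] at this

theorem section_of_colorable [Fintype A] [Fintype K] [Fintype J] (T : Set (A × K × J)) {n : ℕ}
    (hn : n < (Fintype.card A + 1) * Fintype.card J)
    (hT0 : (0 : A × K × J) ∉ T) (hTJ : ∀ g : A × K × J, g.2.2 ≠ 0 → g ∈ T)
    (hTA : ∀ a : A, a ≠ 0 → ((a, 0, 0) : A × K × J) ∈ T)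
    (hc : (SimpleGraph.addCayley T).Colorable n) :
    ∃ p : K → A, ∀ g ∈ T, g.2.2 = 0 → ∀ x, p (x + g.2.1) - p x ≠ g.1 := by
  classical
  obtain ⟨C⟩ := hc
  have hadj : ∀ u v : A × K × J, v - u ∈ T → C u ≠ C v := by
    intro u v h
    refine C.valid ?_
    rw [SimpleGraph.addCayley_adj']
    refine ⟨?_, v - u, h, Or.inl (by abel)⟩
    rintro rfl
    rw [sub_self] at h
    exact hT0 h
  set Im : J → Finset (Fin n) := fun j => (Finset.univ : Finset (A × K)).image
    (fun y => C (y.1, y.2, j)) with hIm
  have hdisj : ∀ i ∈ (Finset.univ : Finset J), ∀ j ∈ (Finset.univ : Finset J), i ≠ j →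
      Disjoint (Im i) (Im j) := by
    intro i _ j _ hij
    rw [Finset.disjoint_left]
    intro c h1 h2
    simp only [hIm, Finset.mem_image, Finset.mem_univ, true_and] at h1 h2
    obtain ⟨y, rfl⟩ := h1
    obtain ⟨y', h2⟩ := h2
    refine hadj (y.1, y.2, i) (y'.1, y'.2, j) (hTJ _ ?_) h2.symm
    simpa [sub_eq_zero] using hij.symm
  have hsum : ∑ j : J, (Im j).card ≤ n := by
    rw [← Finset.card_biUnion hdisj]
    simpa using Finset.card_le_univ (Finset.univ.biUnion Im)
  obtain ⟨j, hj⟩ : ∃ j : J, (Im j).card ≤ Fintype.card A := by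
    by_contra hcon
    push Not at hcon
    have : ∑ j : J, (Fintype.card A + 1) ≤ ∑ j : J, (Im j).card :=
      Finset.sum_le_sum (fun j _ => hcon j)
    rw [Finset.sum_const, Finset.card_univ, smul_eq_mul] at this
    rw [mul_comm] at hn
    omega
  have hfib : ∀ x : K, (Finset.univ : Finset A).image (fun a => C (a, x, j)) = Im j := by
    intro x
    refine Finset.eq_of_subset_of_card_le ?_ ?_
    · intro c hc
      simp only [Finset.mem_image, Finset.mem_univ, true_and] at hc
      obtain ⟨a, rfl⟩ := hc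
      simp only [hIm, Finset.mem_image, Finset.mem_univ, true_and]
      exact ⟨(a, x), rfl⟩
    · have hinj : Function.Injective (fun a : A => C (a, x, j)) := by
        intro a b hab
        by_contra hne
        refine hadj (a, x, j) (b, x, j) ?_ hab
        have : ((b, x, j) : A × K × J) - (a, x, j) = (b - a, 0, 0) := by
          simp only [Prod.mk_sub_mk, sub_self]; rfl
        rw [this]
        exact hTA _ (sub_ne_zero.2 (Ne.symm hne))
      rw [Finset.card_image_of_injective _ hinj, Finset.card_univ]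
      exact hj
  have hex : ∀ x : K, ∃ a : A, C (a, x, j) = C (0, 0, j) := by
    intro x
    have h0 : C (0, 0, j) ∈ Im j := by
      simp only [hIm, Finset.mem_image, Finset.mem_univ, true_and]
      exact ⟨(0, 0), rfl⟩
    rw [← hfib x] at h0
    simpa using h0
  choose p hp using hex
  refine ⟨p, fun g hg hg2 x he => ?_⟩
  refine hadj (p x, x, j) (p (x + g.2.1), x + g.2.1, j) ?_ ((hp _).trans (hp _).symm)
  have : ((p (x + g.2.1), x + g.2.1, j) : A × K × J) - (p x, x, j) = g := by
    ext
    · simpa using he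
    · simp
    · simp [hg2]
  rwa [this]

end Pool.Agent.MP7fcd00TC
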