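import Pool.Agent.Lib.MP_7fcd00_lc.Read
import Pool.Agent.Lib.MP_7fcd00_lc.Layer

set_option autoImplicit false

/-! Solution of the constraint system iff colourable. -/

namespace Pool.Agent.MP7fcd00TC

variable {V : Type}

/-- the section of a solution -/
noncomputable def sec (z : V → ℕ) (q : ℕ) (s : V → ZMod 3) (x : ℕ) : A :=
  (word z q s (x % q), ((x / q : ℕ) : ZMod 2))

lemma sec_add_mul {z : V → ℕ} {q : ℕ} (hq : 0 < q) (s : V → ZMod 3) (x k : ℕ) :
    sec z q s (x + 2 * q * k) = sec z q s x := by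
  unfold sec
  have h1 : (x + 2 * q * k) % q = x % q := by
    rw [show x + 2 * q * k = x + q * (2 * k) by ring, Nat.add_mul_mod_self_left]
  have h2 : (x + 2 * q * k) / q = x / q + 2 * k := by
    rw [show x + 2 * q * k = x + q * (2 * k) by ring, Nat.add_mul_div_left _ _ hq]
  rw [h1, h2]
  have : ((x / q + 2 * k : ℕ) : ZMod 2) = ((x / q : ℕ) : ZMod 2) := by
    push_cast
    have : (2 : ZMod 2) = 0 := by decide
    rw [this]; ring
  rw [this]

lemma sec_mod {z : V → ℕ} {q : ℕ} (hq : 0 < q) (s : V → ZMod 3) (x : ℕ) :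
    sec z q s (x % (2 * q)) = sec z q s x := by
  conv_rhs => rw [← Nat.mod_add_div x (2 * q)]
  exact (sec_add_mul hq s _ _).symm

lemma sec_add_q {z : V → ℕ} {q : ℕ} (hq : 0 < q) (s : V → ZMod 3) (x : ℕ) :
    sec z q s (x + q) = sec z q s x + (0, 1) := by
  unfold sec
  rw [Nat.add_mod_right, Nat.add_div_right _ hq]
  simp

lemma sec_forb {z : V → ℕ} {U : ℕ} (hg : Geo z U) {lst : V → ZMod 3 → Prop}
    {arc : V → V → Prop} (harc : ∀ u v, arc u v → z u < z v) (s : V → ZMod 3)
    (hl : ∀ u, lst u (s u)) (ha : ∀ u v, arc u v → s v - s u ≠ 2) (x d : ℕ) (h0 : 0 < d)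
    (hd : d < 10 * U) (hc : (sec z (10 * U) s (x + d) - sec z (10 * U) s x).2 = 0) :
    ¬ Forb z (10 * U) lst arc d (sec z (10 * U) s (x + d) - sec z (10 * U) s x).1 := by
  have hU := hg.hU
  set q := 10 * U with hq
  have hq0 : 0 < q := by omega
  have hr := Nat.mod_lt x hq0
  have hx := Nat.mod_add_div x q
  by_cases hlt : x % q + d < q
  · have e1 : (x + d) % q = x % q + d := by
      rw [← Nat.mod_add_div x q, show x % q + q * (x / q) + d = (x % q + d) + q * (x / q) by ring,
        Nat.add_mul_mod_self_left, Nat.mod_eq_of_lt hlt]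
      congr 1
      rw [Nat.add_mul_mod_self_left, Nat.mod_mod]
    have := word_ok hg harc s hl ha (x % q) (x % q + d) (by omega) hlt
    rw [show x % q + d - x % q = d by omega, ← hq] at this
    simp only [sec, Prod.fst_sub, e1]
    exact this
  · exfalso
    have e2 : (x + d) / q = x / q + 1 := by
      have e3 : (x / q + 1) * q = q * (x / q) + q := by ring
      rw [Nat.div_eq_iff hq0, e3]
      constructor <;> omega
    simp only [sec, Prod.snd_sub, e2] at hc
    push_cast at hc
    rw [add_sub_cancel_left] at hc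
    exact absurd hc (by decide)

theorem colorable_of_sol {z : V → ℕ} {U : ℕ} (hg : Geo z U) {lst : V → ZMod 3 → Prop}
    {arc : V → V → Prop} (harc : ∀ u v, arc u v → z u < z v) (s : V → ZMod 3)
    (hl : ∀ u, lst u (s u)) (ha : ∀ u v, arc u v → s v - s u ≠ 2) (m : ℕ) (hm : 0 < m) :
    (SimpleGraph.addCayley (conn z (10 * U) lst arc m)).Colorable (12 * m) := by
  have hU := hg.hU
  have : NeZero m := ⟨by omega⟩
  have : NeZero (2 * (10 * U)) := ⟨by omega⟩
  set q := 10 * U with hq
  have hq0 : 0 < q := by omega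
  have hcard : Fintype.card A * Fintype.card (ZMod m) = 12 * m := by
    rw [ZMod.card]; congr 1
  rw [← hcard]
  refine colorable_of_section _ (fun x : ZMod (2 * q) => sec z q s x.val) ?_
  intro g hgT hg2 x he
  have hadd : ∀ y : ZMod (2 * q), sec z q s (x + y).val = sec z q s (x.val + y.val) := by
    intro y
    rw [ZMod.val_add, sec_mod hq0]
  have hval : ∀ d : ℕ, d < 2 * q → ((d : ℕ) : ZMod (2 * q)).val = d := by
    intro d hd
    rw [ZMod.val_natCast, Nat.mod_eq_of_lt hd]
  rcases hgT with h | ⟨_, h1, h2⟩ | ⟨_, h1, h2⟩ | ⟨_, h1, d, hd0, hd1, h2, h3⟩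
  · exact h hg2
  · rw [h1, add_zero, sub_self] at he
    exact h2 he.symm
  · rw [h1, hadd, hval q (by omega), sec_add_q hq0, add_sub_cancel_left] at he
    exact h2 he.symm
  · rw [h2, hadd, hval d (by omega)] at he
    have hc : (sec z q s (x.val + d) - sec z q s x.val).2 = 0 := by rw [he]; exact h1
    have := sec_forb hg harc s hl ha x.val d hd0 hd1 hc
    rw [← hq, he] at this
    exact this h3

theorem sol_of_colorable {z : V → ℕ} {U : ℕ} (hg : Geo z U) {lst : V → ZMod 3 → Prop}
    {arc : V → V → Prop} (harc : ∀ u v, arc u v → z u < z v) (m n : ℕ) (hn : n < 13 * m)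
    (hc : (SimpleGraph.addCayley (conn z (10 * U) lst arc m)).Colorable n) :
    ∃ s : V → ZMod 3, (∀ u, lst u (s u)) ∧ ∀ u v, arc u v → s v - s u ≠ 2 := by
  have hU := hg.hU
  have : NeZero m := ⟨by omega⟩
  have : NeZero (2 * (10 * U)) := ⟨by omega⟩
  set q := 10 * U with hq
  have hq0 : 0 < q := by omega
  obtain ⟨p, hp⟩ := section_of_colorable (conn z q lst arc m) (n := n)
    (by
      have : Fintype.card A = 12 := by rfl
      rw [ZMod.card, this]; omega)
    (by
      rintro (h | ⟨_, _, h⟩ | ⟨_, h, _⟩ | ⟨_, _, d, hd0, hd1, h, _⟩)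
      · exact h rfl
      · exact h rfl
      · have := congrArg ZMod.val h
        rw [ZMod.val_natCast, Nat.mod_eq_of_lt (by omega)] at this
        simp at this
        omega
      · have := congrArg ZMod.val h
        rw [ZMod.val_natCast, Nat.mod_eq_of_lt (by omega)] at this
        simp at this
        omega)
    (fun g h => Or.inl h)
    (fun a ha => Or.inr (Or.inl ⟨rfl, rfl, ha⟩)) hc
  have hper : ∀ x : ZMod (2 * q), p (x + (q : ZMod (2 * q))) = p x + (0, 1) := by
    intro x
    by_contra hcon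
    refine hp (p (x + (q : ZMod (2 * q))) - p x, (q : ZMod (2 * q)), 0)
      (Or.inr (Or.inr (Or.inl ⟨rfl, rfl, ?_⟩))) rfl x rfl
    intro h
    exact hcon (sub_eq_iff_eq_add'.1 h)
  obtain ⟨x0, hx0⟩ : ∃ x0 : ZMod (2 * q), (p (x0 - 1)).2 ≠ (p x0).2 := by
    by_contra hcon
    push Not at hcon
    have : ∀ k : ℕ, (p (k : ZMod (2 * q))).2 = (p 0).2 := by
      intro k
      induction k with
      | zero => simp
      | succ k ih =>
        rw [← ih, ← hcon ((k + 1 : ℕ) : ZMod (2 * q))]
        push_cast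
        rw [add_sub_cancel_right]
    have h1 := this q
    have h2 := hper 0
    rw [zero_add] at h2
    rw [h2, Prod.snd_add] at h1
    have h3 : ∀ b : ZMod 2, b + 1 ≠ b := by decide
    exact h3 _ h1
  have hS : Sec z q lst arc (fun x : ℤ => p ((x : ZMod (2 * q)) + x0)) := by
    refine ⟨fun x => ?_, fun x d hd0 hd1 he hF => ?_⟩
    · have : (((x + q : ℤ)) : ZMod (2 * q)) + x0 = ((x : ZMod (2 * q)) + x0) + (q : ZMod (2 * q)) := by
        push_cast; ring
      simp only [this, hper]
    · have e : (((x + d : ℤ)) : ZMod (2 * q)) + x0 = ((x : ZMod (2 * q)) + x0) + (d : ZMod (2 * q)) := by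
        push_cast; ring
      simp only [e] at he hF
      refine hp (p ((x : ZMod (2 * q)) + x0 + d) - p ((x : ZMod (2 * q)) + x0), (d : ZMod (2 * q)), 0)
        (Or.inr (Or.inr (Or.inr ⟨rfl, ?_, d, hd0, hd1, rfl, ?_⟩))) rfl _ rfl
      · simp only [Prod.snd_sub]
        rw [he, sub_self]
      · simpa only [Prod.fst_sub] using hF
  refine read hg hq harc hS ?_
  have e : (((-1 : ℤ)) : ZMod (2 * q)) + x0 = x0 - 1 := by push_cast; ring
  simp only [e]
  simpa using hx0

end Pool.Agent.MP7fcd00TC
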