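import Pool.Agent.Lib.MP_7fcd00_lc.Defs

set_option autoImplicit false

/-! Auxiliary definitions used in the proof. -/

namespace Pool.Agent.MP7fcd00TC

/-- colours of one fibre: value and class -/
abbrev A := ZMod 6 × ZMod 2

/-- differences forbidden at small distances inside one class -/
def nearB (m : ℕ) (δ : ZMod 6) : Bool :=
  δ = 4 && (m = 1 || m = 2 || m = 3 || m = 5 || m = 6)

/-- differences forbidden at distance `q - m` inside one class -/
def farB (m : ℕ) (δ : ZMod 6) : Bool :=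
  (m = 1 && δ ≠ 1) || (m = 2 && (δ = 0 || δ = 1 || δ = 4)) ||
  (m = 3 && (δ = 1 || δ = 3 || δ = 4)) || (m = 4 && (δ = 0 || δ = 1)) || (m = 5 && δ = 0)

/-- `Forb z q lst arc d δ`: the difference `δ` of two values at distance `d` inside one class is
forbidden. `z` are the positions of the information cells, `q` the period, `lst u` the list
of the cell `u`, `arc` the set of arcs. -/
inductive Forb {V : Type} (z : V → ℕ) (q : ℕ) (lst : V → ZMod 3 → Prop) (arc : V → V → Prop) :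
    ℕ → ZMod 6 → Prop
  | near (d : ℕ) (δ : ZMod 6) : nearB d δ = true → Forb z q lst arc d δ
  | far (m d : ℕ) (δ : ZMod 6) : d + m = q → farB m δ = true → Forb z q lst arc d δ
  | m1 (u : V) : Forb z q lst arc (z u + 1) 4
  | m2 (u : V) : Forb z q lst arc (z u + 2) 4
  | m4 (u : V) : Forb z q lst arc (z u + 4) 4
  | r0 (u : V) : Forb z q lst arc (q - z u) 4
  | r1 (u : V) : Forb z q lst arc (q - z u + 1) 4
  | r2 (u : V) : Forb z q lst arc (q - z u + 2) 4
  | l1 (u : V) : Forb z q lst arc (q - z u - 1) 4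
  | l4 (u : V) : Forb z q lst arc (q - z u - 4) 4
  | two (u : V) : Forb z q lst arc (q - z u - 1) 2
  | no5 (u : V) : ¬ lst u 2 → Forb z q lst arc (z u) 4
  | no1 (u : V) : ¬ lst u 0 → Forb z q lst arc (z u - 1) 4
  | no3 (u : V) : ¬ lst u 1 → Forb z q lst arc (q - z u - 3) 4
  | arc (u v : V) : arc u v → Forb z q lst arc (z v - z u) 4

/-- one half of the connection set; the connection set is `conn ∪ -conn`. -/
def conn {V : Type} (z : V → ℕ) (q : ℕ) (lst : V → ZMod 3 → Prop) (arc : V → V → Prop) (m : ℕ) :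
    Set (A × ZMod (2 * q) × ZMod m) :=
  {g | g.2.2 ≠ 0 ∨ (g.2.2 = 0 ∧ g.2.1 = 0 ∧ g.1 ≠ 0) ∨
    (g.2.2 = 0 ∧ g.2.1 = (q : ZMod (2 * q)) ∧ g.1 ≠ (0, 1)) ∨
    (g.2.2 = 0 ∧ g.1.2 = 0 ∧ ∃ d : ℕ, 0 < d ∧ d < q ∧ g.2.1 = (d : ZMod (2 * q)) ∧
      Forb z q lst arc d g.1.1)}

/-- the information cells -/
inductive Cell (n k : ℕ)
  | c (i : Fin k)
  | y (i : Fin k) (j : Fin 3)
  | w (x : Fin n) (t : Fin 6)

/-- the index of a cell -/
def Cell.idx {n k : ℕ} : Cell n k → ℕ
  | .c i => i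
  | .y i j => k + 3 * i + j
  | .w x t => 4 * k + 6 * x + t

/-- the list of a cell -/
def Cell.lst {n k : ℕ} : Cell n k → ZMod 3 → Prop
  | .c _, _ => True
  | .y _ j, e => e ≠ ((j : ℕ) : ZMod 3) + 1
  | .w _ t, e => e ≠ 2 - ((t : ℕ) : ZMod 3)

/-- the arcs -/
def arcs {n k : ℕ} (φ : CNF n k) : Cell n k → Cell n k → Prop
  | .c i, .y i' _ => i = i'
  | .y i j, .w x t => x = (φ i j).1 ∧ t = litT j (φ i j).2
  | .w x t, .w x' t' => x = x' ∧ (t : ℕ) + 1 = t'
  | _, _ => False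

/-- the position of a cell -/
def pos {n k : ℕ} (u : Cell n k) : ℕ :=
  18 * (4 * k + 6 * n + 1) ^ 3 + 8 * (4 * k + 6 * n + 1) ^ 2 * u.idx + u.idx ^ 2

/-- one half of the connection set of a formula, the other half being its negative -/
def connF {n k : ℕ} (φ : CNF n k) (m : ℕ) : Set (Grp n k m) :=
  conn pos (per n k) Cell.lst (arcs φ) m

end Pool.Agent.MP7fcd00TC
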