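import Pool.Agent.Lib.MP_7fcd00_lc.Expl

set_option autoImplicit false

/-! Properties of the connection set and the gap. -/

namespace Pool.Agent.MP7fcd00TC

variable {n k : ℕ}

lemma per_eq (n k : ℕ) : per n k = 10 * (9 * (4 * k + 6 * n + 1) ^ 3) := by
  unfold per; ring

lemma per_pos (n k : ℕ) : 90 ≤ per n k := by
  have : 1 ≤ (4 * k + 6 * n + 1) ^ 3 := Nat.one_le_pow _ _ (by omega)
  unfold per; omega

/-- forbidden distances lie strictly between `0` and the period -/
lemma forb_range (φ : CNF n k) (d : ℕ) (δ : ZMod 6)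
    (h : Forb pos (per n k) Cell.lst (arcs φ) d δ) : 0 < d ∧ d < per n k := by
  have hg := geo_pos n k
  have hU := hg.hU
  have hq := per_eq n k
  generalize 9 * (4 * k + 6 * n + 1) ^ 3 = U at *
  cases h with
  | near _ _ h =>
    unfold nearB at h
    simp only [Bool.or_eq_true, Bool.and_eq_true, decide_eq_true_eq] at h
    omega
  | far m _ _ hm h =>
    unfold farB at h
    simp only [Bool.or_eq_true, Bool.and_eq_true, decide_eq_true_eq] at h
    omega
  | m1 u => have := hg.lo u; have := hg.hi u; omega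
  | m2 u => have := hg.lo u; have := hg.hi u; omega
  | m4 u => have := hg.lo u; have := hg.hi u; omega
  | r0 u => have := hg.lo u; have := hg.hi u; omega
  | r1 u => have := hg.lo u; have := hg.hi u; omega
  | r2 u => have := hg.lo u; have := hg.hi u; omega
  | l1 u => have := hg.lo u; have := hg.hi u; omega
  | l4 u => have := hg.lo u; have := hg.hi u; omega
  | two u => have := hg.lo u; have := hg.hi u; omega
  | no5 u h => have := hg.lo u; have := hg.hi u; omega
  | no1 u h => have := hg.lo u; have := hg.hi u; omega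
  | no3 u h => have := hg.lo u; have := hg.hi u; omega
  | arc u v h =>
    have := hg.lo u; have := hg.hi v; have := arcs_pos φ u v h
    omega

lemma neg_per (n k : ℕ) : -((per n k : ℕ) : ZMod (2 * per n k)) = (per n k : ℕ) := by
  rw [neg_eq_iff_add_eq_zero]
  have : ((per n k : ℕ) : ZMod (2 * per n k)) + (per n k : ℕ) =
      ((2 * per n k : ℕ) : ZMod (2 * per n k)) := by
    push_cast; ring
  rw [this]
  exact ZMod.natCast_self _

lemma mem_S_iff (φ : CNF n k) (m : ℕ) (g : Grp n k m) :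
    g ∈ S φ m ↔ g ∈ connF φ m ∨ -g ∈ connF φ m := by
  have neg01 : -((0, 1) : ZMod 6 × ZMod 2) = (0, 1) := by decide
  constructor
  · rintro (((h | ⟨h1, h2⟩) | ⟨h1, h2⟩) | ⟨⟨d, δ⟩, hp, h | h⟩)
    · exact Or.inl (Or.inl h)
    · exact Or.inl (Or.inr (Or.inl ⟨by rw [h1]; rfl, by rw [h1]; rfl, h2⟩))
    · exact Or.inl (Or.inr (Or.inr (Or.inl ⟨by rw [h1], by rw [h1], h2⟩)))
    · have hF := forb_of_mem φ _ hp
      obtain ⟨h0, h1⟩ := forb_range φ _ _ hF
      left
      rw [h]
      exact Or.inr (Or.inr (Or.inr ⟨rfl, rfl, d, h0, h1, rfl, hF⟩))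
    · have hF := forb_of_mem φ _ hp
      obtain ⟨h0, h1⟩ := forb_range φ _ _ hF
      right
      rw [h, neg_neg]
      exact Or.inr (Or.inr (Or.inr ⟨rfl, rfl, d, h0, h1, rfl, hF⟩))
  · rintro ((h | ⟨h0, h1, h2⟩ | ⟨h0, h1, h2⟩ | ⟨h0, h1, d, _, _, h2, h3⟩) |
      (h | ⟨h0, h1, h2⟩ | ⟨h0, h1, h2⟩ | ⟨h0, h1, d, _, _, h2, h3⟩))
    · exact Or.inl (Or.inl (Or.inl h))
    · exact Or.inl (Or.inl (Or.inr ⟨Prod.ext h1 h0, h2⟩))
    · exact Or.inl (Or.inr ⟨Prod.ext h1 h0, h2⟩)
    · refine Or.inr ⟨(d, g.1.1), mem_of_forb φ _ _ h3, Or.inl ?_⟩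
      exact Prod.ext (Prod.ext rfl h1) (Prod.ext h2 h0)
    · refine Or.inl (Or.inl (Or.inl ?_))
      intro h'
      exact h (by rw [Prod.snd_neg, Prod.snd_neg, h', neg_zero])
    · refine Or.inl (Or.inl (Or.inr ⟨?_, ?_⟩))
      · rw [← neg_eq_zero]
        exact Prod.ext h1 h0
      · intro h'
        exact h2 (by rw [Prod.fst_neg, h', neg_zero])
    · refine Or.inl (Or.inr ⟨?_, ?_⟩)
      · refine Prod.ext ?_ ?_
        · have : -g.2.1 = ((per n k : ℕ) : ZMod (2 * per n k)) := h1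
          rw [← neg_neg g.2.1, this, neg_per]
        · have : -g.2.2 = 0 := h0
          exact neg_eq_zero.1 this
      · intro h'
        exact h2 (by rw [Prod.fst_neg, h', neg01])
    · refine Or.inr ⟨(d, (-g).1.1), mem_of_forb φ _ _ h3, Or.inr ?_⟩
      rw [← neg_eq_iff_eq_neg]
      exact Prod.ext (Prod.ext rfl h1) (Prod.ext h2 h0)

lemma S_eq (φ : CNF n k) (m : ℕ) : S φ m = connF φ m ∪ -connF φ m := by
  ext g
  rw [mem_S_iff]
  rfl

lemma graph_eq (φ : CNF n k) (m : ℕ) :
    SimpleGraph.addCayley (S φ m) =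
      SimpleGraph.addCayley (conn pos (per n k) Cell.lst (arcs φ) m) := by
  rw [S_eq, SimpleGraph.addCayley_union, SimpleGraph.addCayley_neg, sup_idem]
  rfl

lemma zero_notMem (φ : CNF n k) (m : ℕ) :
    (0 : Grp n k m) ∉ conn pos (per n k) Cell.lst (arcs φ) m := by
  have hq := per_pos n k
  have : NeZero (2 * per n k) := ⟨by omega⟩
  rintro (h | ⟨_, _, h⟩ | ⟨_, h, _⟩ | ⟨_, _, d, hd0, hd1, h, _⟩)
  · exact h rfl
  · exact h rfl
  · have := congrArg ZMod.val h
    rw [ZMod.val_natCast, Nat.mod_eq_of_lt (by omega)] at this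
    simp at this
    omega
  · have := congrArg ZMod.val h
    rw [ZMod.val_natCast, Nat.mod_eq_of_lt (by omega)] at this
    simp at this
    omega

lemma S_symm (φ : CNF n k) (m : ℕ) (g : Grp n k m) (h : g ∈ S φ m) : -g ∈ S φ m := by
  rw [mem_S_iff] at h ⊢
  rw [neg_neg]
  exact h.symm

lemma S_zero (φ : CNF n k) (m : ℕ) : (0 : Grp n k m) ∉ S φ m := by
  rw [mem_S_iff, neg_zero, or_self]
  exact zero_notMem φ m

lemma S_adj (φ : CNF n k) (m : ℕ) (x y : Grp n k m) :
    (SimpleGraph.addCayley (S φ m)).Adj x y ↔ x - y ∈ S φ m := by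
  rw [SimpleGraph.addCayley_adj']
  constructor
  · rintro ⟨_, g, hg, h | h⟩
    · rw [← h]
      have : x - (x + g) = -g := by abel
      rw [this]
      exact S_symm φ m g hg
    · rw [h, add_sub_cancel_left]
      exact hg
  · intro h
    refine ⟨?_, x - y, h, Or.inr (by abel)⟩
    rintro rfl
    rw [sub_self] at h
    exact S_zero φ m h

/-- the literals on which the differences at distance `d` depend -/
lemma dep_card (d : ℕ) : ∃ P : Finset (Fin k × Fin 3), P.card ≤ 1 ∧
    ∀ (i : Fin k) (j : Fin 3) (x : Fin n) (t : Fin 6),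
      pos (Cell.w x t : Cell n k) - pos (Cell.y i j : Cell n k) = d → 0 < d → (i, j) ∈ P := by
  classical
  refine ⟨Finset.univ.filter (fun p : Fin k × Fin 3 => ∃ (x : Fin n) (t : Fin 6),
    pos (Cell.w x t : Cell n k) - pos (Cell.y p.1 p.2 : Cell n k) = d ∧ 0 < d), ?_, ?_⟩
  · rw [Finset.card_le_one]
    rintro ⟨i, j⟩ h1 ⟨i', j'⟩ h2
    simp only [Finset.mem_filter, Finset.mem_univ, true_and] at h1 h2
    obtain ⟨x, t, h1, h0⟩ := h1
    obtain ⟨x', t', h2, _⟩ := h2
    have hs := (geo_pos n k).sidon (Cell.y i j) (Cell.w x t) (Cell.y i' j') (Cell.w x' t')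
      (by omega)
    rcases hs with ⟨_, h⟩ | ⟨h, _⟩
    · injection h with ha hb
      rw [ha, hb]
    · exact absurd h (by simp)
  · intro i j x t h h0
    simp only [Finset.mem_filter, Finset.mem_univ, true_and]
    exact ⟨x, t, h, h0⟩

lemma forb_congr {d : ℕ} {P : Finset (Fin k × Fin 3)}
    (hP : ∀ (i : Fin k) (j : Fin 3) (x : Fin n) (t : Fin 6),
      pos (Cell.w x t : Cell n k) - pos (Cell.y i j : Cell n k) = d → 0 < d → (i, j) ∈ P)
    {φ φ' : CNF n k} (hφ : ∀ p ∈ P, φ p.1 p.2 = φ' p.1 p.2) {δ : ZMod 6} (hd : 0 < d)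
    (h : Forb pos (per n k) Cell.lst (arcs φ) d δ) :
    Forb pos (per n k) Cell.lst (arcs φ') d δ := by
  cases h with
  | near _ _ h => exact Forb.near _ _ h
  | far m _ _ hm h => exact Forb.far m _ _ hm h
  | m1 u => exact Forb.m1 u
  | m2 u => exact Forb.m2 u
  | m4 u => exact Forb.m4 u
  | r0 u => exact Forb.r0 u
  | r1 u => exact Forb.r1 u
  | r2 u => exact Forb.r2 u
  | l1 u => exact Forb.l1 u
  | l4 u => exact Forb.l4 u
  | two u => exact Forb.two u
  | no5 u h => exact Forb.no5 u h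
  | no1 u h => exact Forb.no1 u h
  | no3 u h => exact Forb.no3 u h
  | arc u v h =>
    refine Forb.arc u v ?_
    cases u with
    | c i => cases v with
      | c i' => exact h.elim
      | y i' j' => exact h
      | w x' t' => exact h.elim
    | y i j => cases v with
      | c i' => exact h.elim
      | y i' j' => exact h.elim
      | w x' t' =>
        have := hφ _ (hP i j x' t' rfl hd)
        simp only at this
        obtain ⟨h1, h2⟩ := h
        rw [this] at h1 h2
        exact ⟨h1, h2⟩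
    | w x t => cases v with
      | c i' => exact h.elim
      | y i' j' => exact h.elim
      | w x' t' => exact h

lemma conn_congr {m : ℕ} (g : Grp n k m) {P : Finset (Fin k × Fin 3)}
    (hP : ∀ (i : Fin k) (j : Fin 3) (x : Fin n) (t : Fin 6),
      pos (Cell.w x t : Cell n k) - pos (Cell.y i j : Cell n k) = g.2.1.val →
        0 < g.2.1.val → g.2.1.val < per n k → (i, j) ∈ P)
    {φ φ' : CNF n k} (hφ : ∀ p ∈ P, φ p.1 p.2 = φ' p.1 p.2)
    (h : g ∈ conn pos (per n k) Cell.lst (arcs φ) m) :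
    g ∈ conn pos (per n k) Cell.lst (arcs φ') m := by
  have hq := per_pos n k
  have : NeZero (2 * per n k) := ⟨by omega⟩
  rcases h with h | h | h | ⟨h1, h2, d, hd0, hd1, h3, h4⟩
  · exact Or.inl h
  · exact Or.inr (Or.inl h)
  · exact Or.inr (Or.inr (Or.inl h))
  · have hval : g.2.1.val = d := by
      rw [h3, ZMod.val_natCast, Nat.mod_eq_of_lt (by omega)]
    rw [hval] at hP
    exact Or.inr (Or.inr (Or.inr ⟨h1, h2, d, hd0, hd1, h3,
      forb_congr (fun i j x t he h0 => hP i j x t he h0 hd1) hφ hd0 h4⟩))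

/-- every membership bit depends on at most one literal -/
lemma S_local (m : ℕ) (g : Grp n k m) : ∃ P : Finset (Fin k × Fin 3), P.card ≤ 1 ∧
    ∀ φ φ' : CNF n k, (∀ p ∈ P, φ p.1 p.2 = φ' p.1 p.2) → (g ∈ S φ m ↔ g ∈ S φ' m) := by
  have hq := per_pos n k
  have : NeZero (2 * per n k) := ⟨by omega⟩
  set d : ℕ := if g.2.1.val < per n k then g.2.1.val else (-g).2.1.val with hd
  obtain ⟨P, hP1, hP2⟩ := dep_card (n := n) (k := k) d
  have hneg : g.2.1.val ≠ 0 → (-g).2.1.val = 2 * per n k - g.2.1.val := by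
    intro h0
    have h1 : NeZero g.2.1 := ⟨fun h => h0 (by rw [h]; exact ZMod.val_zero)⟩
    rw [Prod.snd_neg, Prod.fst_neg, ZMod.val_neg_of_ne_zero]
  have hneg0 : g.2.1.val = 0 → (-g).2.1.val = 0 := by
    intro h0
    rw [ZMod.val_eq_zero] at h0 ⊢
    rw [Prod.snd_neg, Prod.fst_neg, h0, neg_zero]
  have hlt := ZMod.val_lt g.2.1
  have key : ∀ φ φ' : CNF n k, (∀ p ∈ P, φ p.1 p.2 = φ' p.1 p.2) → g ∈ S φ m → g ∈ S φ' m := by
    intro φ φ' hφ h
    rw [mem_S_iff] at h ⊢
    rcases h with h | h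
    · left
      refine conn_congr g (P := P) (fun i j x t he h0 h1 => hP2 i j x t ?_ ?_) hφ h
      · rw [hd, if_pos h1]; exact he
      · rw [hd, if_pos h1]; exact h0
    · right
      refine conn_congr (-g) (P := P) (fun i j x t he h0 h1 => ?_) hφ h
      have hg : ¬ g.2.1.val < per n k := by
        intro hlt'
        by_cases hz : g.2.1.val = 0
        · have := hneg0 hz
          omega
        · have := hneg hz
          omega
      refine hP2 i j x t ?_ ?_
      · rw [hd, if_neg hg]; exact he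
      · rw [hd, if_neg hg]; exact h0
  exact ⟨P, hP1, fun φ φ' hφ => ⟨key φ φ' hφ, key φ' φ (fun p hp => (hφ p hp).symm)⟩⟩

theorem gap (φ : CNF n k) (m : ℕ) (hm : 0 < m) :
    (Sat φ → (SimpleGraph.addCayley (S φ m)).chromaticNumber ≤ (12 * m : ℕ)) ∧
    (¬ Sat φ → ((13 * m : ℕ) : ℕ∞) ≤ (SimpleGraph.addCayley (S φ m)).chromaticNumber) := by
  rw [graph_eq]
  constructor
  · intro h
    obtain ⟨s, hs1, hs2⟩ := sol_of_sat φ h
    have := colorable_of_sol (geo_pos n k) (arcs_pos φ) s hs1 hs2 m hm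
    rw [← per_eq] at this
    exact this.chromaticNumber_le
  · intro h
    by_contra hcon
    rw [not_le] at hcon
    obtain ⟨N, hN⟩ := ENat.ne_top_iff_exists.1 (ne_top_of_lt hcon)
    rw [← hN] at hcon
    have hcol : (SimpleGraph.addCayley (conn pos (per n k) Cell.lst (arcs φ) m)).Colorable N :=
      SimpleGraph.chromaticNumber_le_iff_colorable.1 (by rw [← hN])
    rw [per_eq] at hcol
    obtain ⟨s, hs1, hs2⟩ := sol_of_colorable (geo_pos n k) (arcs_pos φ) m N
      (by exact_mod_cast hcon) hcol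
    exact h (sat_of_sol φ s hs1 hs2)

end Pool.Agent.MP7fcd00TC
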