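import Pool.Agent.Lib.MP_7fcd00_lc.Word

set_option autoImplicit false

/-! Soundness: a section without forbidden differences gives a solution. -/

namespace Pool.Agent.MP7fcd00TC

variable {V : Type} {z : V → ℕ} {q : ℕ} {lst : V → ZMod 3 → Prop} {arc : V → V → Prop}

/-- the constraints on a section lifted to `ℤ` -/
structure Sec (z : V → ℕ) (q : ℕ) (lst : V → ZMod 3 → Prop) (arc : V → V → Prop)
    (g : ℤ → A) : Prop where
  per : ∀ x : ℤ, g (x + q) = g x + (0, 1)
  forb : ∀ (x : ℤ) (d : ℕ), 0 < d → d < q → (g (x + d)).2 = (g x).2 →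
    ¬ Forb z q lst arc d ((g (x + d)).1 - (g x).1)

lemma zmod2_ne {a b : ZMod 2} (h : a ≠ b) : a + 1 = b := by
  revert a b; decide

lemma zmod2_one : ∀ b : ZMod 2, b ≠ 0 → b = 1 := by decide

lemma all_bad : ∀ a : ZMod 6, 1 - a = 4 ∨ 3 - a = 4 ∨ 0 - a = 4 ∨ a - 2 = 4 ∨ a - 3 = 4 ∨
    a - 0 = 4 := by decide

lemma Sec.forb' {g : ℤ → A} (h : Sec z q lst arc g) {x y : ℤ} {d : ℕ} {a b : A}
    (h0 : 0 < d) (h1 : d < q) (hxy : x + d = y) (ha : g x = a) (hb : g y = b)
    (hab : b.2 = a.2) : ¬ Forb z q lst arc d (b.1 - a.1) := by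
  subst hxy ha hb
  exact h.forb x d h0 h1 hab

lemma Sec.ok {g : ℤ → A} (h : Sec z q lst arc g) (hq : 10 ≤ q) {x y : ℤ} {m : ℕ} {a b : A}
    (h0 : 0 < m) (h6 : m ≤ 6) (hxy : x + m = y) (ha : g x = a) (hb : g y = b) :
    okP m a b = true := by
  unfold okP
  split_ifs with hc
  · have := h.forb' h0 (by omega) hxy ha hb hc.symm
    rw [Bool.not_eq_true']
    by_contra hcon
    exact this (Forb.near _ _ (by simpa using hcon))
  · rw [Bool.not_eq_true']
    by_contra hcon
    have hp : g (x + q) = a + (0, 1) := by rw [h.per, ha]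
    have hc2 : (a + (0, 1)).2 = b.2 := by
      rw [Prod.snd_add]; exact zmod2_ne hc
    have := h.forb' (x := y) (y := x + q) (d := q - m) (by omega) (by omega) (by omega) hb hp hc2
    refine this (Forb.far m _ _ (by omega) ?_)
    simpa using hcon

theorem read_core {U : ℕ} (hg : Geo z U) (hq : q = 10 * U)
    (harc : ∀ u v, arc u v → z u < z v) {g : ℤ → A} (h : Sec z q lst arc g)
    (h0 : g 0 = (1, 0)) (h1 : g 1 = (3, 0)) (h2 : g 2 = (0, 0))
    (k1 : g (-1) = (2, 1)) (k2 : g (-2) = (3, 1)) (k3 : g (-3) = (1, 1)) (k4 : g (-4) = (0, 1)) :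
    ∃ s : V → ZMod 3, (∀ u, lst u (s u)) ∧ ∀ u v, arc u v → s v - s u ≠ 2 := by
  have hU := hg.hU
  have hadd : ∀ c : ZMod 6, ((c, 1) : A) + (0, 1) = (c, 0) := by decide
  have hadd' : ∀ c : ZMod 6, ((c, 0) : A) + (0, 1) = (c, 1) := by decide
  have e1 : g (-1 + q) = (2, 0) := by rw [h.per, k1, hadd]
  have e3 : g (-3 + q) = (1, 0) := by rw [h.per, k3, hadd]
  have e4 : g (-4 + q) = (0, 0) := by rw [h.per, k4, hadd]
  have f0 : g (0 + q) = (1, 1) := by rw [h.per, h0, hadd']
  have f1 : g (1 + q) = (3, 1) := by rw [h.per, h1, hadd']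
  have f2 : g (2 + q) = (0, 1) := by rw [h.per, h2, hadd']
  have hcell : ∀ u, ∃ i : ZMod 3, g (z u) = (inf i, 0) ∧ lst u i := by
    intro u
    have hlo := hg.lo u
    have hhi := hg.hi u
    obtain ⟨a, b, hab⟩ : ∃ a b, g (z u) = (a, b) := ⟨_, _, rfl⟩
    have hb : b = 0 := by
      by_contra hb
      have hb : b = 1 := zmod2_one b hb
      subst hb
      have r0 := h.forb' (x := z u) (y := 0 + q) (d := q - z u) (by omega) (by omega) (by omega)
        hab f0 rfl
      have r1 := h.forb' (x := z u) (y := 1 + q) (d := q - z u + 1) (by omega) (by omega)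
        (by omega) hab f1 rfl
      have r2 := h.forb' (x := z u) (y := 2 + q) (d := q - z u + 2) (by omega) (by omega)
        (by omega) hab f2 rfl
      have m1 := h.forb' (x := -1) (y := z u) (d := z u + 1) (by omega) (by omega) (by omega)
        k1 hab rfl
      have m2 := h.forb' (x := -2) (y := z u) (d := z u + 2) (by omega) (by omega) (by omega)
        k2 hab rfl
      have m4 := h.forb' (x := -4) (y := z u) (d := z u + 4) (by omega) (by omega) (by omega)
        k4 hab rfl
      have r0' : (1 : ZMod 6) - a ≠ 4 := fun e => r0 (by simp only [e]; exact Forb.r0 u)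
      have r1' : (3 : ZMod 6) - a ≠ 4 := fun e => r1 (by simp only [e]; exact Forb.r1 u)
      have r2' : (0 : ZMod 6) - a ≠ 4 := fun e => r2 (by simp only [e]; exact Forb.r2 u)
      have m1' : a - 2 ≠ 4 := fun e => m1 (by simp only [e]; exact Forb.m1 u)
      have m2' : a - 3 ≠ 4 := fun e => m2 (by simp only [e]; exact Forb.m2 u)
      have m4' : a - 0 ≠ 4 := fun e => m4 (by simp only [e]; exact Forb.m4 u)
      have := all_bad a
      tauto
    subst hb
    have l1 := h.forb' (x := z u) (y := -1 + q) (d := q - z u - 1) (by omega) (by omega)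
      (by omega) hab e1 rfl
    have l4 := h.forb' (x := z u) (y := -4 + q) (d := q - z u - 4) (by omega) (by omega)
      (by omega) hab e4 rfl
    have n5 := h.forb' (x := 0) (y := z u) (d := z u) (by omega) (by omega) (by omega) h0 hab rfl
    have n1 := h.forb' (x := 1) (y := z u) (d := z u - 1) (by omega) (by omega) (by omega)
      h1 hab rfl
    have n3 := h.forb' (x := z u) (y := -3 + q) (d := q - z u - 3) (by omega) (by omega)
      (by omega) hab e3 rfl
    have l1a : (2 : ZMod 6) - a ≠ 4 := fun e => l1 (by simp only [e]; exact Forb.l1 u)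
    have l1b : (2 : ZMod 6) - a ≠ 2 := fun e => l1 (by simp only [e]; exact Forb.two u)
    have l4a : (0 : ZMod 6) - a ≠ 4 := fun e => l4 (by simp only [e]; exact Forb.l4 u)
    have hcases : ∀ c : ZMod 6, (2 : ZMod 6) - c ≠ 4 → (2 : ZMod 6) - c ≠ 2 →
        (0 : ZMod 6) - c ≠ 4 → c = 1 ∨ c = 3 ∨ c = 5 := by decide
    rcases hcases a l1a l1b l4a with rfl | rfl | rfl
    · refine ⟨0, by rw [hab]; rfl, ?_⟩
      by_contra hl
      exact n1 (by
        have : (((1 : ZMod 6), (0 : ZMod 2)) : A).1 - (((3 : ZMod 6), (0 : ZMod 2)) : A).1 = 4 := by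
          decide
        rw [this]; exact Forb.no1 u hl)
    · refine ⟨1, by rw [hab]; rfl, ?_⟩
      by_contra hl
      exact n3 (by
        have : (((1 : ZMod 6), (0 : ZMod 2)) : A).1 - (((3 : ZMod 6), (0 : ZMod 2)) : A).1 = 4 := by
          decide
        rw [this]; exact Forb.no3 u hl)
    · refine ⟨2, by rw [hab]; rfl, ?_⟩
      by_contra hl
      exact n5 (by
        have : (((5 : ZMod 6), (0 : ZMod 2)) : A).1 - (((1 : ZMod 6), (0 : ZMod 2)) : A).1 = 4 := by
          decide
        rw [this]; exact Forb.no5 u hl)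
  choose s hs using hcell
  refine ⟨s, fun u => (hs u).2, fun u v huv he => ?_⟩
  have hz := harc u v huv
  have hv := hg.hi v
  have := h.forb' (x := z u) (y := z v) (d := z v - z u) (by omega) (by omega) (by omega)
    (hs u).1 (hs v).1 rfl
  refine this ?_
  have e : (((inf (s v), 0) : A)).1 - (((inf (s u), 0) : A)).1 = 4 := by
    revert he
    generalize s v = i
    generalize s u = j
    revert i j
    decide
  rw [e]
  exact Forb.arc u v huv

theorem read {U : ℕ} (hg : Geo z U) (hq : q = 10 * U)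
    (harc : ∀ u v, arc u v → z u < z v) {g : ℤ → A} (h : Sec z q lst arc g)
    (hw : (g (-1)).2 ≠ (g 0).2) :
    ∃ s : V → ZMod 3, (∀ u, lst u (s u)) ∧ ∀ u v, arc u v → s v - s u ≠ 2 := by
  have hU := hg.hU
  -- normalise
  set g₁ : ℤ → A := fun x => g x - g 0 + (1, 0) with hg1
  have h' : Sec z q lst arc g₁ := by
    refine ⟨fun x => ?_, fun x d hd hdq he => ?_⟩
    · simp only [hg1, h.per]; abel
    · have := h.forb x d hd hdq (by simpa [hg1] using he)
      simpa [hg1] using this
  have g0 : g₁ 0 = (1, 0) := by simp [hg1]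
  have hq10 : 10 ≤ q := by omega
  have hx1 : (g₁ (-1)).2 ≠ 0 := by
    simp only [hg1, Prod.snd_add, Prod.snd_sub, add_zero]
    exact sub_ne_zero.2 hw
  rcases window (x1 := g₁ (-1)) (x2 := g₁ (-2)) (x3 := g₁ (-3)) (x4 := g₁ (-4)) (y1 := g₁ 1)
    (y2 := g₁ 2) (y3 := g₁ 3) hx1
    (h'.ok hq10 (m := 1) (by norm_num) (by norm_num) (by norm_num) rfl g0)
    (h'.ok hq10 (m := 1) (by norm_num) (by norm_num) (by norm_num) g0 rfl)
    (h'.ok hq10 (m := 2) (by norm_num) (by norm_num) (by norm_num) rfl rfl)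
    (h'.ok hq10 (m := 1) (by norm_num) (by norm_num) (by norm_num) rfl rfl)
    (h'.ok hq10 (m := 2) (by norm_num) (by norm_num) (by norm_num) rfl g0)
    (h'.ok hq10 (m := 3) (by norm_num) (by norm_num) (by norm_num) rfl rfl)
    (h'.ok hq10 (m := 1) (by norm_num) (by norm_num) (by norm_num) rfl rfl)
    (h'.ok hq10 (m := 2) (by norm_num) (by norm_num) (by norm_num) g0 rfl)
    (h'.ok hq10 (m := 3) (by norm_num) (by norm_num) (by norm_num) rfl rfl)
    (h'.ok hq10 (m := 4) (by norm_num) (by norm_num) (by norm_num) rfl rfl)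
    (h'.ok hq10 (m := 1) (by norm_num) (by norm_num) (by norm_num) rfl rfl)
    (h'.ok hq10 (m := 2) (by norm_num) (by norm_num) (by norm_num) rfl rfl)
    (h'.ok hq10 (m := 3) (by norm_num) (by norm_num) (by norm_num) rfl g0)
    (h'.ok hq10 (m := 4) (by norm_num) (by norm_num) (by norm_num) rfl rfl)
    (h'.ok hq10 (m := 5) (by norm_num) (by norm_num) (by norm_num) rfl rfl)
    (h'.ok hq10 (m := 1) (by norm_num) (by norm_num) (by norm_num) rfl rfl)
    (h'.ok hq10 (m := 2) (by norm_num) (by norm_num) (by norm_num) rfl rfl)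
    (h'.ok hq10 (m := 3) (by norm_num) (by norm_num) (by norm_num) g0 rfl)
    (h'.ok hq10 (m := 4) (by norm_num) (by norm_num) (by norm_num) rfl rfl)
    (h'.ok hq10 (m := 5) (by norm_num) (by norm_num) (by norm_num) rfl rfl)
    (h'.ok hq10 (m := 6) (by norm_num) (by norm_num) (by norm_num) rfl rfl)
    (h'.ok hq10 (m := 1) (by norm_num) (by norm_num) (by norm_num) rfl rfl)
    (h'.ok hq10 (m := 2) (by norm_num) (by norm_num) (by norm_num) rfl rfl)
    (h'.ok hq10 (m := 3) (by norm_num) (by norm_num) (by norm_num) rfl rfl)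
    (h'.ok hq10 (m := 4) (by norm_num) (by norm_num) (by norm_num) rfl g0)
    (h'.ok hq10 (m := 5) (by norm_num) (by norm_num) (by norm_num) rfl rfl)
    (h'.ok hq10 (m := 6) (by norm_num) (by norm_num) (by norm_num) rfl rfl) with
    ⟨a1, a2, a3, a4, b1, b2, _⟩ | ⟨a1, a2, a3, a4, b1, b2, b3⟩
  · exact read_core hg hq harc h' g0 b1 b2 a1 a2 a3 a4
  · -- the reversed skeleton
    set g₂ : ℤ → A := fun x => (3, 1) - g₁ (-1 - x) with hg2
    have h'' : Sec z q lst arc g₂ := by
      refine ⟨fun x => ?_, fun x d hd hdq he => ?_⟩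
      · have e := h'.per (-1 - (x + q))
        have e' : -1 - (x + (q : ℤ)) + q = -1 - x := by ring
        rw [e'] at e
        simp only [hg2, e]
        have : (0, 1) + ((0, 1) : A) = 0 := by decide
        calc (3, 1) - g₁ (-1 - (x + (q : ℤ)))
            = (3, 1) - g₁ (-1 - (x + (q : ℤ))) + 0 - 0 := by abel
          _ = (3, 1) - (g₁ (-1 - (x + (q : ℤ))) + (0, 1)) + (0, 1) := by rw [← this]; abel
      · have e' : -1 - (x + (d : ℤ)) + d = -1 - x := by ring
        have hc : (g₁ (-1 - x)).2 = (g₁ (-1 - (x + d))).2 := by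
          simp only [hg2, Prod.snd_sub, sub_right_inj] at he
          exact he.symm
        have := h'.forb' (x := -1 - (x + d)) (y := -1 - x) (d := d) hd hdq e' rfl rfl hc
        have e2 : (g₂ (x + d)).1 - (g₂ x).1 = (g₁ (-1 - x)).1 - (g₁ (-1 - (x + d))).1 := by
          simp only [hg2, Prod.fst_sub]; abel
        rw [e2]
        exact this
    refine read_core hg hq harc h'' ?_ ?_ ?_ ?_ ?_ ?_ ?_
    · have : (-1 - 0 : ℤ) = -1 := by norm_num
      simp only [hg2, this, a1]; decide
    · have : (-1 - 1 : ℤ) = -2 := by norm_num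
      simp only [hg2, this, a2]; decide
    · have : (-1 - 2 : ℤ) = -3 := by norm_num
      simp only [hg2, this, a3]; decide
    · have : (-1 - -1 : ℤ) = 0 := by norm_num
      simp only [hg2, this, g0]; decide
    · have : (-1 - -2 : ℤ) = 1 := by norm_num
      simp only [hg2, this, b1]; decide
    · have : (-1 - -3 : ℤ) = 2 := by norm_num
      simp only [hg2, this, b2]; decide
    · have : (-1 - -4 : ℤ) = 3 := by norm_num
      simp only [hg2, this, b3]; decide

end Pool.Agent.MP7fcd00TC
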