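import Pool.Agent.Lib.MP_7fcd00_lc.Circ

set_option autoImplicit false

/-!
# Towers of circular cliques over the Cayley graph of a formula
-/

namespace Pool.Agent.MP7fcd00TC

/-- The group `Z/6 × Z/2 × Z/2q × Z/1 × Z/c₁ × … × Z/c_s`; the list is `[c_s, …, c₁]`. -/
def TG (n k : ℕ) : List ℕ → Type
  | [] => Grp n k 1
  | c :: L => TG n k L × ZMod c

noncomputable instance tgGroup (n k : ℕ) : (L : List ℕ) → AddCommGroup (TG n k L)
  | [] => inferInstanceAs (AddCommGroup (Grp n k 1))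
  | _ :: L => @Prod.instAddCommGroup _ _ (tgGroup n k L) _

/-- the last number `c_s` of the tower (`c₀ = 12`) -/
def last (L : List ℕ) : ℕ := L.headD 12

/-- The connection set: `S φ` for the empty tower, then lexicographic products with the circular
cliques `K_{c/y}`, `y` the previous number. -/
def TS {n k : ℕ} (φ : CNF n k) : (L : List ℕ) → Set (TG n k L)
  | [] => S φ 1
  | c :: L => lex (TS φ L) (last L) c

/-- The numbers `N₀ = 13`, `N_{i+1} = ⌈N_i c_{i+1} / c_i⌉`. -/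
def TN : List ℕ → ℕ
  | [] => 13
  | c :: L => (TN L * c + (last L - 1)) / last L

/-- `c₀ = 12` and `c_{i+1} ≥ 2 c_i`. -/
def Chain : List ℕ → Prop
  | [] => True
  | c :: L => Chain L ∧ 2 * last L ≤ c

lemma last_nil : last [] = 12 := rfl

lemma last_cons (c : ℕ) (L : List ℕ) : last (c :: L) = c := rfl

lemma last_pos : ∀ {L : List ℕ}, Chain L → 0 < last L
  | [], _ => by rw [last_nil]; norm_num
  | c :: L, h => by
    have := last_pos h.1
    have := h.2
    rw [last_cons]; omega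

variable {n k : ℕ}

theorem tg_card (n k : ℕ) : ∀ (L : List ℕ),
    Nat.card (TG n k L) = 2160 * (4 * k + 6 * n + 1) ^ 3 * L.prod
  | [] => by
    show Nat.card (Grp n k 1) = _
    simp only [Nat.card_prod, Nat.card_zmod, per, List.prod_nil]
    ring
  | c :: L => by
    show Nat.card (TG n k L × ZMod c) = _
    rw [Nat.card_prod, tg_card n k L, Nat.card_zmod, List.prod_cons]
    ring

theorem ts_zero (φ : CNF n k) : ∀ {L : List ℕ}, Chain L → (0 : TG n k L) ∉ TS φ L
  | [], _ => S_zero φ 1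
  | _ :: L, h => lex_zero (G := TG n k L) (last_pos h.1) (ts_zero φ h.1)

theorem ts_symm (φ : CNF n k) : ∀ {L : List ℕ}, Chain L → ∀ g ∈ TS φ L, -g ∈ TS φ L
  | [], _ => fun g hg => S_symm φ 1 g hg
  | _ :: L, h => fun g hg => lex_symm (G := TG n k L) (last_pos h.1) h.2 (ts_symm φ h.1) g hg

theorem ts_adj (φ : CNF n k) {L : List ℕ} (h : Chain L) (x y : TG n k L) :
    (SimpleGraph.addCayley (TS φ L)).Adj x y ↔ x - y ∈ TS φ L :=
  adj_iff_of_symm (ts_zero φ h) (ts_symm φ h) x y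

theorem ts_up (φ : CNF n k) (hs : Sat φ) : ∀ {L : List ℕ}, Chain L →
    (SimpleGraph.addCayley (TS φ L)).Colorable (last L)
  | [], _ => by
    show (SimpleGraph.addCayley (S φ 1)).Colorable 12
    have h := (gap φ 1 one_pos).1 hs
    exact SimpleGraph.chromaticNumber_le_iff_colorable.1 h
  | _ :: L, h => amp_up (G := TG n k L) (last_pos h.1) h.2 (ts_zero φ h.1) (ts_up φ hs h.1)

theorem ts_low (φ : CNF n k) (hs : ¬ Sat φ) : ∀ {L : List ℕ}, Chain L → ∀ m,
    (SimpleGraph.addCayley (TS φ L)).Colorable m → TN L ≤ m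
  | [], _, m, hm => by
    have hm' : (SimpleGraph.addCayley (S φ 1)).Colorable m := hm
    have h : ((13 * 1 : ℕ) : ℕ∞) ≤ (m : ℕ∞) :=
      le_trans ((gap φ 1 one_pos).2 hs) hm'.chromaticNumber_le
    show 13 ≤ m
    exact_mod_cast h
  | c :: L, h, m, hm => by
    have h1 := amp_low (G := TG n k L) (last_pos h.1) h.2 (ts_zero φ h.1)
      (ts_low φ hs h.1) hm
    have hp := last_pos h.1
    show (TN L * c + (last L - 1)) / last L ≤ m
    rw [Nat.div_le_iff_le_mul_add_pred hp]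
    have e : last L * m = m * last L := mul_comm _ _
    omega

theorem ts_local (n k : ℕ) : ∀ (L : List ℕ) (g : TG n k L), ∃ P : Finset (Fin k × Fin 3),
    P.card ≤ 1 ∧ ∀ φ φ' : CNF n k, (∀ p ∈ P, φ p.1 p.2 = φ' p.1 p.2) →
      (g ∈ TS φ L ↔ g ∈ TS φ' L)
  | [], g => S_local 1 g
  | c :: L, g => by
    obtain ⟨P, hP, h⟩ := ts_local n k L g.1
    refine ⟨P, hP, fun φ φ' hφ => ?_⟩
    show (g.2 = 0 ∧ g.1 ∈ TS φ L) ∨ _ ↔ (g.2 = 0 ∧ g.1 ∈ TS φ' L) ∨ _
    rw [h φ φ' hφ]

/-- The tower `25, 51, 103, …`: `c_i = 13 · 2^i - 1`. -/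
def odds : ℕ → List ℕ
  | 0 => []
  | s + 1 => (13 * 2 ^ (s + 1) - 1) :: odds s

theorem odds_last (s : ℕ) : last (odds s) = 13 * 2 ^ s - 1 := by
  cases s with
  | zero => rfl
  | succ s => rfl

theorem odds_chain : ∀ s, Chain (odds s)
  | 0 => trivial
  | s + 1 => ⟨odds_chain s, by
    rw [odds_last]
    have : 1 ≤ 2 ^ s := Nat.one_le_two_pow
    rw [pow_succ]
    omega⟩

theorem odds_TN : ∀ s, TN (odds s) = 15 * 2 ^ s - 2
  | 0 => rfl
  | s + 1 => by
    show (TN (odds s) * (13 * 2 ^ (s + 1) - 1) + (last (odds s) - 1)) / last (odds s) = _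
    rw [odds_last, odds_TN s]
    have h1 : 1 ≤ 2 ^ s := Nat.one_le_two_pow
    rw [pow_succ]
    generalize 2 ^ s = u at *
    obtain ⟨w, rfl⟩ : ∃ w, u = w + 1 := ⟨u - 1, by omega⟩
    have e1 : 15 * (w + 1) - 2 = 15 * w + 13 := by omega
    have e2 : 13 * ((w + 1) * 2) - 1 = 26 * w + 25 := by omega
    have e3 : 13 * (w + 1) - 1 = 13 * w + 12 := by omega
    have e4 : 15 * ((w + 1) * 2) - 2 = 30 * w + 28 := by omega
    rw [e1, e2, e3, e4]
    have a1 : (15 * w + 13) * (26 * w + 25) = 390 * (w * w) + 713 * w + 325 := by ring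
    have a2 : (30 * w + 28) * (13 * w + 12) = 390 * (w * w) + 724 * w + 336 := by ring
    rw [Nat.div_eq_iff (by omega), a1, a2]
    constructor <;> omega

end Pool.Agent.MP7fcd00TC
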