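import Pool.Agent.Lib.MP_7fcd00_lc.Inner

set_option autoImplicit false

/-! Finite check: the word near a wall is rigid up to reversal. -/

namespace Pool.Agent.MP7fcd00TC

/-- the pair of cells at distance `m` with values `a` (left) and `b` (right) is allowed -/
def okP (m : ℕ) (a b : A) : Bool :=
  if a.2 = b.2 then !nearB m (b.1 - a.1) else !farB m (a.1 - b.1)

/-- the skeleton or its reversal -/
def isSk (x1 x2 x3 x4 y1 y2 y3 : A) : Bool :=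
  (x1 = (2, 1) && x2 = (3, 1) && x3 = (1, 1) && x4 = (0, 1) && y1 = (3, 0) && y2 = (0, 0) &&
      y3 = (0, 0)) ||
  (x1 = (2, 1) && x2 = (0, 1) && x3 = (3, 1) && x4 = (3, 1) && y1 = (0, 0) && y2 = (2, 0) &&
      y3 = (3, 0))

theorem win1 : ∀ x1 : A, (x1.2 ≠ 0 ∧ okP 1 x1 (1, 0) = true) → x1 = (2, 1) := by
  decide +kernel

theorem win2 : ∀ y1 : A, (okP 1 (1, 0) y1 && okP 2 (2, 1) y1) = true →
    ∀ x2 : A, (okP 1 x2 (2, 1) && okP 2 x2 (1, 0) && okP 3 x2 y1) = true →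
    ∀ y2 : A, (okP 1 y1 y2 && okP 2 (1, 0) y2 && okP 3 (2, 1) y2 && okP 4 x2 y2) = true →
    ∀ x3 : A, (okP 1 x3 x2 && okP 2 x3 (2, 1) && okP 3 x3 (1, 0) && okP 4 x3 y1 &&
      okP 5 x3 y2) = true →
    ∀ y3 : A, (okP 1 y2 y3 && okP 2 y1 y3 && okP 3 (1, 0) y3 && okP 4 (2, 1) y3 &&
      okP 5 x2 y3 && okP 6 x3 y3) = true →
    ∀ x4 : A, (okP 1 x4 x3 && okP 2 x4 x2 && okP 3 x4 (2, 1) && okP 4 x4 (1, 0) &&
      okP 5 x4 y1 && okP 6 x4 y2) = true → isSk (2, 1) x2 x3 x4 y1 y2 y3 = true := by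
  decide +kernel

theorem window {x1 x2 x3 x4 y1 y2 y3 : A} (h0 : x1.2 ≠ 0)
    (h1 : okP 1 x1 (1, 0) = true)
    (h2 : okP 1 (1, 0) y1 = true) (h3 : okP 2 x1 y1 = true)
    (h4 : okP 1 x2 x1 = true) (h5 : okP 2 x2 (1, 0) = true) (h6 : okP 3 x2 y1 = true)
    (h7 : okP 1 y1 y2 = true) (h8 : okP 2 (1, 0) y2 = true) (h9 : okP 3 x1 y2 = true)
    (h10 : okP 4 x2 y2 = true)
    (h11 : okP 1 x3 x2 = true) (h12 : okP 2 x3 x1 = true) (h13 : okP 3 x3 (1, 0) = true)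
    (h14 : okP 4 x3 y1 = true) (h15 : okP 5 x3 y2 = true)
    (h16 : okP 1 y2 y3 = true) (h17 : okP 2 y1 y3 = true) (h18 : okP 3 (1, 0) y3 = true)
    (h19 : okP 4 x1 y3 = true) (h20 : okP 5 x2 y3 = true) (h21 : okP 6 x3 y3 = true)
    (h22 : okP 1 x4 x3 = true) (h23 : okP 2 x4 x2 = true) (h24 : okP 3 x4 x1 = true)
    (h25 : okP 4 x4 (1, 0) = true) (h26 : okP 5 x4 y1 = true) (h27 : okP 6 x4 y2 = true) :
    (x1 = (2, 1) ∧ x2 = (3, 1) ∧ x3 = (1, 1) ∧ x4 = (0, 1) ∧ y1 = (3, 0) ∧ y2 = (0, 0) ∧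
      y3 = (0, 0)) ∨
    (x1 = (2, 1) ∧ x2 = (0, 1) ∧ x3 = (3, 1) ∧ x4 = (3, 1) ∧ y1 = (0, 0) ∧ y2 = (2, 0) ∧
      y3 = (3, 0)) := by
  obtain rfl := win1 x1 ⟨h0, h1⟩
  have h := win2 y1 (by simp [h2, h3]) x2 (by simp [h4, h5, h6]) y2 (by simp [h7, h8, h9, h10])
    x3 (by simp [h11, h12, h13, h14, h15]) y3 (by simp [h16, h17, h18, h19, h20, h21])
    x4 (by simp [h22, h23, h24, h25, h26, h27])
  simp only [isSk, Bool.or_eq_true, Bool.and_eq_true, decide_eq_true_eq] at h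
  rcases h with h | h
  · left; tauto
  · right; tauto

end Pool.Agent.MP7fcd00TC
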