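import Pool.Agent.Lib.MP_7fcd00_lc.Window

set_option autoImplicit false

/-! Forbidden differences and the word of a solution. -/

namespace Pool.Agent.MP7fcd00TC

/-- geometry of the positions of the cells -/
structure Geo {V : Type} (z : V → ℕ) (U : ℕ) : Prop where
  hU : 9 ≤ U
  lo : ∀ u, 2 * U ≤ z u
  hi : ∀ u, z u < 3 * U
  sp : ∀ u v, u ≠ v → z u + 8 ≤ z v ∨ z v + 8 ≤ z u
  sidon : ∀ u v a b, z v + z a = z b + z u → (v = b ∧ a = u) ∨ (v = u ∧ a = b)

/-- the value of an information cell -/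
def inf (i : ZMod 3) : ZMod 6 := if i = 0 then 1 else if i = 1 then 3 else 5

lemma inf_cases (i : ZMod 3) : (i = 0 ∧ inf i = 1) ∨ (i = 1 ∧ inf i = 3) ∨ (i = 2 ∧ inf i = 5) := by
  revert i; decide

variable {V : Type}

open Classical in
/-- the word of a solution -/
noncomputable def word (z : V → ℕ) (q : ℕ) (s : V → ZMod 3) (x : ℕ) : ZMod 6 :=
  if x = 0 then 1 else if x = 1 then 3 else if x + 1 = q then 2 else if x + 2 = q then 3 else
  if x + 3 = q then 1 else if h : ∃ u, z u = x then inf (s h.choose) else 0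

lemma Geo.inj {z : V → ℕ} {U : ℕ} (hg : Geo z U) {u v : V} (h : z u = z v) : u = v := by
  by_contra hne
  rcases hg.sp u v hne with h1 | h1 <;> omega

lemma word_cell {z : V → ℕ} {U : ℕ} (hg : Geo z U) (s : V → ZMod 3) (u : V) :
    word z (10 * U) s (z u) = inf (s u) := by
  classical
  have h1 := hg.lo u
  have h2 := hg.hi u
  have h3 := hg.hU
  have hex : ∃ v, z v = z u := ⟨u, rfl⟩
  have hch : hex.choose = u := hg.inj hex.choose_spec
  unfold word
  rw [if_neg (by omega), if_neg (by omega), if_neg (by omega), if_neg (by omega),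
    if_neg (by omega), dif_pos hex, hch]

lemma word_zero {z : V → ℕ} {q : ℕ} (s : V → ZMod 3) {x : ℕ} (h0 : x ≠ 0) (h1 : x ≠ 1)
    (h2 : x + 1 ≠ q) (h3 : x + 2 ≠ q) (h4 : x + 3 ≠ q) (h5 : ∀ u, x ≠ z u) :
    word z q s x = 0 := by
  classical
  unfold word
  rw [if_neg h0, if_neg h1, if_neg h2, if_neg h3, if_neg h4, dif_neg]
  rintro ⟨u, hu⟩
  exact h5 u hu.symm

lemma word_cases {z : V → ℕ} {U : ℕ} (hg : Geo z U) (s : V → ZMod 3) (x : ℕ) :
    (x = 0 ∧ word z (10 * U) s x = 1) ∨ (x = 1 ∧ word z (10 * U) s x = 3) ∨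
    (x + 1 = 10 * U ∧ word z (10 * U) s x = 2) ∨ (x + 2 = 10 * U ∧ word z (10 * U) s x = 3) ∨
    (x + 3 = 10 * U ∧ word z (10 * U) s x = 1) ∨ (∃ u, x = z u ∧ word z (10 * U) s x = inf (s u)) ∨
    (x ≠ 0 ∧ x ≠ 1 ∧ x + 1 ≠ 10 * U ∧ x + 2 ≠ 10 * U ∧ x + 3 ≠ 10 * U ∧ (∀ u, x ≠ z u) ∧
      word z (10 * U) s x = 0) := by
  classical
  have h3 := hg.hU
  by_cases c0 : x = 0
  · left; exact ⟨c0, by unfold word; rw [if_pos c0]⟩
  by_cases c1 : x = 1
  · right; left; exact ⟨c1, by unfold word; rw [if_neg c0, if_pos c1]⟩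
  by_cases c2 : x + 1 = 10 * U
  · right; right; left
    exact ⟨c2, by unfold word; rw [if_neg c0, if_neg c1, if_pos c2]⟩
  by_cases c3 : x + 2 = 10 * U
  · right; right; right; left
    exact ⟨c3, by unfold word; rw [if_neg c0, if_neg c1, if_neg c2, if_pos c3]⟩
  by_cases c4 : x + 3 = 10 * U
  · right; right; right; right; left
    exact ⟨c4, by unfold word; rw [if_neg c0, if_neg c1, if_neg c2, if_neg c3, if_pos c4]⟩
  by_cases c5 : ∃ u, x = z u
  · obtain ⟨u, rfl⟩ := c5
    right; right; right; right; right; left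
    exact ⟨u, rfl, word_cell hg s u⟩
  · push Not at c5
    right; right; right; right; right; right
    exact ⟨c0, c1, c2, c3, c4, c5, word_zero s c0 c1 c2 c3 c4 c5⟩

/-- where a difference 4 can occur -/
lemma diff_four {z : V → ℕ} {U : ℕ} (hg : Geo z U) (s : V → ZMod 3) {x y : ℕ} (hxy : x < y)
    (hy : y < 10 * U) (h : word z (10 * U) s y - word z (10 * U) s x = 4) :
    (∃ a b, x = z a ∧ y = z b ∧ inf (s b) - inf (s a) = 4) ∨
    (x = 0 ∧ ∃ b, y = z b ∧ s b = 2) ∨ (x = 1 ∧ ∃ b, y = z b ∧ s b = 0) ∨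
    (y + 2 = 10 * U ∧ ∃ a, x = z a ∧ s a = 2) ∨ (y + 3 = 10 * U ∧ ∃ a, x = z a ∧ s a = 1) ∨
    (x = 1 ∧ y + 3 = 10 * U) := by
  have hU := hg.hU
  rcases word_cases hg s x with ⟨hx, wx⟩ | ⟨hx, wx⟩ | ⟨hx, wx⟩ | ⟨hx, wx⟩ | ⟨hx, wx⟩ |
    ⟨a, hx, wx⟩ | ⟨x0, x1, x2, x3, x4, x5, wx⟩ <;>
  rcases word_cases hg s y with ⟨hy', wy⟩ | ⟨hy', wy⟩ | ⟨hy', wy⟩ | ⟨hy', wy⟩ | ⟨hy', wy⟩ |
    ⟨b, hy', wy⟩ | ⟨y0, y1, y2, y3, y4, y5, wy⟩ <;>
  rw [wx, wy] at h <;>
  first
    | exact absurd h (by decide)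
    | (exfalso; omega)
    | skip
  all_goals first
    | exact Or.inl ⟨a, b, hx, hy', h⟩
    | exact Or.inr (Or.inr (Or.inr (Or.inr (Or.inr ⟨hx, hy'⟩))))
    | (rcases inf_cases (s b) with ⟨hb, hb'⟩ | ⟨hb, hb'⟩ | ⟨hb, hb'⟩ <;> rw [hb'] at h <;>
        first
          | exact absurd h (by decide)
          | exact Or.inr (Or.inl ⟨hx, b, hy', hb⟩)
          | exact Or.inr (Or.inr (Or.inl ⟨hx, b, hy', hb⟩))
          | (exfalso; have := hg.hi b; omega))
    | (rcases inf_cases (s a) with ⟨hb, hb'⟩ | ⟨hb, hb'⟩ | ⟨hb, hb'⟩ <;> rw [hb'] at h <;>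
        first
          | exact absurd h (by decide)
          | exact Or.inr (Or.inr (Or.inr (Or.inl ⟨hy', a, hx, hb⟩)))
          | exact Or.inr (Or.inr (Or.inr (Or.inr (Or.inl ⟨hy', a, hx, hb⟩))))
          | (exfalso; have := hg.lo a; omega))

/-- differences at distance close to the period -/
lemma diff_far {z : V → ℕ} {U : ℕ} (hg : Geo z U) (s : V → ZMod 3) {x y m : ℕ} (hxy : x < y)
    (hy : y < 10 * U) (hm : y - x + m = 10 * U)
    (h : farB m (word z (10 * U) s y - word z (10 * U) s x) = true) : False := by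
  have hU := hg.hU
  have hm5 : m = 1 ∨ m = 2 ∨ m = 3 ∨ m = 4 ∨ m = 5 := by
    unfold farB at h
    simp only [Bool.or_eq_true, Bool.and_eq_true, decide_eq_true_eq] at h
    tauto
  have w0 : word z (10 * U) s 0 = 1 := by unfold word; simp
  have w1 : word z (10 * U) s 1 = 3 := by unfold word; simp
  have w2 : ∀ t, 2 ≤ t → t ≤ 4 → word z (10 * U) s t = 0 := by
    intro t h1 h2
    apply word_zero <;> try omega
    intro u; have := hg.lo u; omega
  have v1 : ∀ t, t + 1 = 10 * U → word z (10 * U) s t = 2 := by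
    intro t ht
    unfold word
    rw [if_neg (by omega), if_neg (by omega), if_pos ht]
  have v2 : ∀ t, t + 2 = 10 * U → word z (10 * U) s t = 3 := by
    intro t ht
    unfold word
    rw [if_neg (by omega), if_neg (by omega), if_neg (by omega), if_pos ht]
  have v3 : ∀ t, t + 3 = 10 * U → word z (10 * U) s t = 1 := by
    intro t ht
    unfold word
    rw [if_neg (by omega), if_neg (by omega), if_neg (by omega), if_neg (by omega), if_pos ht]
  have v4 : ∀ t, t + 4 = 10 * U ∨ t + 5 = 10 * U → word z (10 * U) s t = 0 := by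
    intro t ht
    apply word_zero <;> try omega
    intro u; have := hg.hi u; omega
  have hx : x = 0 ∨ x = 1 ∨ x = 2 ∨ x = 3 ∨ x = 4 := by omega
  rcases hm5 with rfl | rfl | rfl | rfl | rfl <;> rcases hx with rfl | rfl | rfl | rfl | rfl <;>
  first
    | (exfalso; omega)
    | skip
  all_goals
    first
      | rw [w0] at h
      | rw [w1] at h
      | rw [w2 2 (by norm_num) (by norm_num)] at h
      | rw [w2 3 (by norm_num) (by norm_num)] at h
      | rw [w2 4 (by norm_num) (by norm_num)] at h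
  all_goals
    first
      | rw [v1 y (by omega)] at h
      | rw [v2 y (by omega)] at h
      | rw [v3 y (by omega)] at h
      | rw [v4 y (by omega)] at h
  all_goals exact absurd h (by decide)

/-- **Completeness**: the word of a solution has no forbidden difference. -/
theorem word_ok {z : V → ℕ} {U : ℕ} (hg : Geo z U) {lst : V → ZMod 3 → Prop}
    {arc : V → V → Prop} (harc : ∀ u v, arc u v → z u < z v) (s : V → ZMod 3)
    (hl : ∀ u, lst u (s u)) (ha : ∀ u v, arc u v → s v - s u ≠ 2) (x y : ℕ) (hxy : x < y)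
    (hy : y < 10 * U) :
    ¬ Forb z (10 * U) lst arc (y - x) (word z (10 * U) s y - word z (10 * U) s x) := by
  have hU := hg.hU
  intro hF
  generalize hd : y - x = d at hF
  generalize hδ : word z (10 * U) s y - word z (10 * U) s x = δ at hF
  have h4 : δ = 4 → (∃ a b, x = z a ∧ y = z b ∧ inf (s b) - inf (s a) = 4) ∨
    (x = 0 ∧ ∃ b, y = z b ∧ s b = 2) ∨ (x = 1 ∧ ∃ b, y = z b ∧ s b = 0) ∨
    (y + 2 = 10 * U ∧ ∃ a, x = z a ∧ s a = 2) ∨ (y + 3 = 10 * U ∧ ∃ a, x = z a ∧ s a = 1) ∨
    (x = 1 ∧ y + 3 = 10 * U) := fun h => diff_four hg s hxy hy (hδ.trans h)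
  -- a difference 4 whose distance is `f u` for one of the cells
  have main : ∀ (u : V), δ = 4 → (d = z u + 1 ∨ d = z u + 2 ∨ d = z u + 4 ∨ d = 10 * U - z u ∨
      d = 10 * U - z u + 1 ∨ d = 10 * U - z u + 2 ∨ d = 10 * U - z u - 1 ∨
      d = 10 * U - z u - 4 ∨ (d = z u ∧ ¬ lst u 2) ∨ (d = z u - 1 ∧ ¬ lst u 0) ∨
      (d = 10 * U - z u - 3 ∧ ¬ lst u 1)) → False := by
    intro u h hor
    have hlu := hg.lo u
    have hhu := hg.hi u
    rcases h4 h with ⟨a, b, hx, hy', _⟩ | ⟨hx, b, hy', hs⟩ | ⟨hx, b, hy', hs⟩ |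
      ⟨hy', a, hx, hs⟩ | ⟨hy', a, hx, hs⟩ | ⟨hx, hy'⟩
    · have h1 := hg.lo a
      have h2 := hg.hi b
      omega
    · have h1 := hg.lo b
      have h2 := hg.hi b
      by_cases hub : u = b
      · subst hub
        rcases hor with h | h | h | h | h | h | h | h | h | h | h <;> try omega
        exact h.2 (hs ▸ hl u)
      · have := hg.sp u b hub
        omega
    · have h1 := hg.lo b
      have h2 := hg.hi b
      by_cases hub : u = b
      · subst hub
        rcases hor with h | h | h | h | h | h | h | h | h | h | h <;> try omega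
        exact h.2 (hs ▸ hl u)
      · have := hg.sp u b hub
        omega
    · have h1 := hg.lo a
      have h2 := hg.hi a
      by_cases hub : u = a
      · subst hub
        omega
      · have := hg.sp u a hub
        omega
    · have h1 := hg.lo a
      have h2 := hg.hi a
      by_cases hub : u = a
      · subst hub
        rcases hor with h | h | h | h | h | h | h | h | h | h | h <;> try omega
        exact h.2 (hs ▸ hl u)
      · have := hg.sp u a hub
        omega
    · omega
  cases hF with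
  | near _ _ h =>
    unfold nearB at h
    simp only [Bool.or_eq_true, Bool.and_eq_true, decide_eq_true_eq] at h
    obtain ⟨hδ4, hd'⟩ := h
    rcases h4 hδ4 with ⟨a, b, hx, hy', _⟩ | ⟨hx, b, hy', hs⟩ | ⟨hx, b, hy', hs⟩ |
      ⟨hy', a, hx, hs⟩ | ⟨hy', a, hx, hs⟩ | ⟨hx, hy'⟩
    · by_cases hab : a = b
      · subst hab; omega
      · have := hg.sp a b hab
        omega
    · have h1 := hg.lo b
      omega
    · have h1 := hg.lo b
      omega
    · have h1 := hg.hi a
      omega
    · have h1 := hg.hi a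
      omega
    · omega
  | far m _ _ hm h =>
    refine diff_far hg s hxy hy (m := m) (by omega) (by rw [hδ]; exact h)
  | m1 u => exact main u rfl (by tauto)
  | m2 u => exact main u rfl (by tauto)
  | m4 u => exact main u rfl (by tauto)
  | r0 u => exact main u rfl (by tauto)
  | r1 u => exact main u rfl (by tauto)
  | r2 u => exact main u rfl (by tauto)
  | l1 u => exact main u rfl (by tauto)
  | l4 u => exact main u rfl (by tauto)
  | no5 u h => exact main u rfl (by tauto)
  | no1 u h => exact main u rfl (by tauto)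
  | no3 u h => exact main u rfl (by tauto)
  | arc u v h =>
    have huv := harc u v h
    have hlu := hg.lo u
    have hhv := hg.hi v
    rcases h4 rfl with ⟨a, b, hx, hy', hi⟩ | ⟨hx, b, hy', hs⟩ | ⟨hx, b, hy', hs⟩ |
      ⟨hy', a, hx, hs⟩ | ⟨hy', a, hx, hs⟩ | ⟨hx, hy'⟩
    · rcases hg.sidon u v a b (by omega) with ⟨h1, h2⟩ | ⟨h1, h2⟩
      · subst h1 h2
        refine ha _ _ h ?_
        revert hi
        generalize s v = i
        generalize s a = j
        revert i j
        decide
      · subst h1; omega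
    · have h1 := hg.lo b
      omega
    · have h1 := hg.lo b
      omega
    · have h1 := hg.hi a
      omega
    · have h1 := hg.hi a
      omega
    · omega
  | two u =>
    have hlu := hg.lo u
    have hhu := hg.hi u
    rcases word_cases hg s y with ⟨hy', wy⟩ | ⟨hy', wy⟩ | ⟨hy', wy⟩ | ⟨hy', wy⟩ | ⟨hy', wy⟩ |
      ⟨b, hy', wy⟩ | ⟨y0, y1, y2, y3, y4, y5, wy⟩
    · omega
    · omega
    · have hx : x = z u := by omega
      rw [wy, hx, word_cell hg s u] at hδ
      rcases inf_cases (s u) with ⟨_, h'⟩ | ⟨_, h'⟩ | ⟨_, h'⟩ <;> rw [h'] at hδ <;>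
        exact absurd hδ (by decide)
    · have hx : x + 1 = z u := by omega
      have wx : word z (10 * U) s x = 0 := by
        apply word_zero <;> try omega
        intro v hv
        by_cases huv : u = v
        · subst huv; omega
        · have := hg.sp u v huv
          omega
      rw [wy, wx] at hδ
      exact absurd hδ (by decide)
    · have hx : x + 2 = z u := by omega
      have wx : word z (10 * U) s x = 0 := by
        apply word_zero <;> try omega
        intro v hv
        by_cases huv : u = v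
        · subst huv; omega
        · have := hg.sp u v huv
          omega
      rw [wy, wx] at hδ
      exact absurd hδ (by decide)
    · have := hg.hi b
      omega
    · rw [wy] at hδ
      rcases word_cases hg s x with ⟨hx, wx⟩ | ⟨hx, wx⟩ | ⟨hx, wx⟩ | ⟨hx, wx⟩ | ⟨hx, wx⟩ |
        ⟨a, hx, wx⟩ | ⟨x0, x1, x2, x3, x4, x5, wx⟩
      · rw [wx] at hδ; exact absurd hδ (by decide)
      · rw [wx] at hδ; exact absurd hδ (by decide)
      · omega
      · omega
      · omega
      · rw [wx] at hδ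
        rcases inf_cases (s a) with ⟨_, h'⟩ | ⟨_, h'⟩ | ⟨_, h'⟩ <;> rw [h'] at hδ <;>
          exact absurd hδ (by decide)
      · rw [wx] at hδ; exact absurd hδ (by decide)

end Pool.Agent.MP7fcd00TC
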